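import Pool.Agent.Lib.MP_77ccbb_an.Defs

/-!
Reduction of planar minimal sets to compact forward invariant subsets of the plane.
-/

open Set Filter Topology

namespace Pool.Agent.Lib.MP_77ccbb_an

/-- A nonempty compact subset of the plane, invariant under all `f_{c'}`, `‖c' - c‖ ≤ r`. -/
def PlanarInv (c : ℂ) (r : ℝ) (K : Set ℂ) : Prop :=
  K.Nonempty ∧ IsCompact K ∧ ∀ c' : ℂ, ‖c' - c‖ ≤ r → ∀ z ∈ K, f c' z ∈ K

theorem PlanarInv.isInv {c : ℂ} {r : ℝ} {K : Set ℂ} (h : PlanarInv c r K) :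
    IsInv c r (((↑) : ℂ → OnePoint ℂ) '' K) := by
  obtain ⟨h1, h2, h3⟩ := h
  refine ⟨h1.image _, h2.image OnePoint.continuous_coe, fun g hg => ?_⟩
  induction hg with
  | gen c' h =>
    rintro _ ⟨_, ⟨z, hz, rfl⟩, rfl⟩
    rw [OnePoint.map_some]
    exact mem_image_of_mem _ (h3 c' h z hz)
  | comp c' h g hg ih =>
    rintro _ ⟨x, hx, rfl⟩
    obtain ⟨z, hz, hzx⟩ := ih (mem_image_of_mem g hx)
    rw [Function.comp_apply, ← hzx, OnePoint.map_some]
    exact mem_image_of_mem _ (h3 c' h z hz)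

theorem IsInv.planarInv {c : ℂ} {r : ℝ} {L : Set (OnePoint ℂ)} (h : IsInv c r L)
    (hL : (OnePoint.infty : OnePoint ℂ) ∉ L) :
    PlanarInv c r (((↑) : ℂ → OnePoint ℂ) ⁻¹' L) := by
  obtain ⟨h1, h2, h3⟩ := h
  have himg : ((↑) : ℂ → OnePoint ℂ) '' (((↑) : ℂ → OnePoint ℂ) ⁻¹' L) = L := by
    rw [image_preimage_eq_iff]
    intro x hx
    induction x using OnePoint.rec with
    | infty => exact absurd hx hL
    | coe z => exact ⟨z, rfl⟩
  refine ⟨?_, ?_, fun c' hc' z hz => ?_⟩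
  · rw [← himg] at h1
    exact h1.of_image
  · rw [OnePoint.isOpenEmbedding_coe.isInducing.isCompact_iff, himg]
    exact h2
  · have := h3 _ (InG.gen c' hc') (mem_image_of_mem _ hz)
    rwa [OnePoint.map_some] at this

theorem exists_minimal {c : ℂ} {r : ℝ} {L : Set (OnePoint ℂ)} (h : IsInv c r L) :
    ∃ M ⊆ L, IsMinimalSet c r M := by
  obtain ⟨M, hML, hM⟩ := zorn_superset_nonempty {L | IsInv c r L} (by
    intro C hC hchain hne
    refine ⟨⋂₀ C, ?_, fun s hs => sInter_subset_of_mem hs⟩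
    haveI : Nonempty C := hne.to_subtype
    have hclosed : ∀ U ∈ C, IsClosed U := fun U hU => (hC hU).2.1.isClosed
    refine ⟨?_, ?_, ?_⟩
    · refine IsCompact.nonempty_sInter_of_directed_nonempty_isCompact_isClosed ?_
        (fun U hU => (hC hU).1) (fun U hU => (hC hU).2.1) hclosed
      intro U hU V hV
      rcases hchain.total hU hV with h | h
      · exact ⟨U, hU, subset_rfl, h⟩
      · exact ⟨V, hV, h, subset_rfl⟩
    · obtain ⟨U, hU⟩ := hne
      exact (hC hU).2.1.of_isClosed_subset (isClosed_sInter hclosed) (sInter_subset_of_mem hU)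
    · rintro g hg _ ⟨x, hx, rfl⟩ U hU
      exact (hC hU).2.2 g hg (mem_image_of_mem g (hx U hU))) L h
  refine ⟨M, hML, hM.prop, fun K hK hKM => ?_⟩
  exact subset_antisymm hKM (hM.le_of_le hK hKM)

theorem hasPlanarMinimal_iff (c : ℂ) (r : ℝ) :
    HasPlanarMinimal c r ↔ ∃ K : Set ℂ, PlanarInv c r K := by
  constructor
  · rintro ⟨L, hL, hinf⟩
    exact ⟨_, hL.1.planarInv hinf⟩
  · rintro ⟨K, hK⟩
    obtain ⟨M, hMK, hM⟩ := exists_minimal hK.isInv
    exact ⟨M, hM, fun h => OnePoint.infty_notMem_image_coe (hMK h)⟩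

theorem PlanarInv.mono {c : ℂ} {r r' : ℝ} {K : Set ℂ} (h : PlanarInv c r K) (hr : r' ≤ r) :
    PlanarInv c r' K :=
  ⟨h.1, h.2.1, fun c' hc' => h.2.2 c' (hc'.trans hr)⟩

theorem HasPlanarMinimal.mono {c : ℂ} {r r' : ℝ} (h : HasPlanarMinimal c r) (hr : r' ≤ r) :
    HasPlanarMinimal c r' := by
  rw [hasPlanarMinimal_iff] at h ⊢
  obtain ⟨K, hK⟩ := h
  exact ⟨K, hK.mono hr⟩

theorem PlanarInv.iterate {c : ℂ} {r : ℝ} {K : Set ℂ} (h : PlanarInv c r K) {c' : ℂ}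
    (hc' : ‖c' - c‖ ≤ r) (n : ℕ) {z : ℂ} (hz : z ∈ K) : (f c')^[n] z ∈ K := by
  induction n with
  | zero => exact hz
  | succ n ih =>
    rw [Function.iterate_succ_apply']
    exact h.2.2 c' hc' _ ih

end Pool.Agent.Lib.MP_77ccbb_an
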