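import Mathlib

/-!
Definitions for problem MP_77ccbb_an (bifurcation radius and the Mandelbrot set).
-/

open Set Filter Topology

namespace Pool.Agent.Lib.MP_77ccbb_an

/-- The quadratic polynomial `f_c (z) = z ^ 2 + c`. -/
def f (c z : ℂ) : ℂ := z ^ 2 + c

/-- The Mandelbrot set: the parameters `c` for which the orbit of `0` under `f_c` does not
tend to infinity. -/
def mandelbrot : Set ℂ :=
  {c | ¬ Tendsto (fun n : ℕ => (f c)^[n] 0) atTop (Bornology.cobounded ℂ)}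

/-- The main cardioid, the open set of all `lam / 2 - lam ^ 2 / 4` with `‖lam‖ < 1`. -/
def mainCardioid : Set ℂ := {c | ∃ lam : ℂ, ‖lam‖ < 1 ∧ c = lam / 2 - lam ^ 2 / 4}

/-- Membership in the semigroup `G_{c,r}`: the self-maps `f_{c_N} ∘ ⋯ ∘ f_{c_1}` of the Riemann
sphere (with `∞ ↦ ∞`), where `N ≥ 1` and every `c_i` lies in the closed ball of radius `r`
around `c`. -/
inductive InG (c : ℂ) (r : ℝ) : (OnePoint ℂ → OnePoint ℂ) → Prop
  | gen (c' : ℂ) (h : ‖c' - c‖ ≤ r) : InG c r (OnePoint.map (f c'))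
  | comp (c' : ℂ) (h : ‖c' - c‖ ≤ r) (g : OnePoint ℂ → OnePoint ℂ) (hg : InG c r g) :
      InG c r (OnePoint.map (f c') ∘ g)

/-- `L` is a nonempty compact subset of the Riemann sphere with `g (L) ⊆ L` for all
`g ∈ G_{c,r}`. -/
def IsInv (c : ℂ) (r : ℝ) (L : Set (OnePoint ℂ)) : Prop :=
  L.Nonempty ∧ IsCompact L ∧ ∀ g, InG c r g → g '' L ⊆ L

/-- `L` is a minimal set of `G_{c,r}`. -/
def IsMinimalSet (c : ℂ) (r : ℝ) (L : Set (OnePoint ℂ)) : Prop :=
  IsInv c r L ∧ ∀ K, IsInv c r K → K ⊆ L → K = L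

/-- `G_{c,r}` has a planar minimal set, i.e. a minimal set not containing `∞`. -/
def HasPlanarMinimal (c : ℂ) (r : ℝ) : Prop :=
  ∃ L : Set (OnePoint ℂ), IsMinimalSet c r L ∧ (OnePoint.infty : OnePoint ℂ) ∉ L

/-- The bifurcation radius: the infimum of the `r ≥ 0` for which `G_{c,r}` has no planar
minimal set. -/
noncomputable def rbif (c : ℂ) : ℝ := sInf {r : ℝ | 0 ≤ r ∧ ¬ HasPlanarMinimal c r}

end Pool.Agent.Lib.MP_77ccbb_an
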