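import Pool.Agent.Lib.MP_77ccbb_an.Upper

/-!
Invariant disks through `1/2`, and the negative answer to Q2.
-/

open Set Filter Topology Metric

namespace Pool.Agent.Lib.MP_77ccbb_an

/-- The key inequality on the unit circle. -/
theorem circle_bound {d R : ℝ} {u ζ : ℂ} (hd : 0 < d) (hdR : d ≤ R) (hu : ‖u‖ = 1)
    (hcond : d + 2 * R ^ 3 + 2 * R * ‖(R : ℂ) ^ 2 - d * u‖ ≤ 2 * R ^ 2 * u.re) (hζ : ‖ζ‖ = 1) :
    ‖R * ζ - d + R ^ 2 * u * (1 - ζ) ^ 2‖ ≤ R - d := by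
  have hR : 0 < R := hd.trans_le hdR
  have h1 : -‖(R : ℂ) ^ 2 - d * u‖ ≤ (ζ * ((R : ℂ) ^ 2 - d * u)).re := by
    have := Complex.abs_re_le_norm (ζ * ((R : ℂ) ^ 2 - d * u))
    rw [norm_mul, hζ, one_mul] at this
    exact (abs_le.1 this).1
  have h2 : (ζ * ((R : ℂ) ^ 2 - d * u)).re =
      ζ.re * (R ^ 2 - d * u.re) + ζ.im * (d * u.im) := by
    simp [sq]
  rw [h2] at h1
  have hu2 : u.re ^ 2 + u.im ^ 2 = 1 := by
    have := Complex.sq_norm u
    rw [hu, Complex.normSq_apply] at this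
    nlinarith
  have hζ2 : ζ.re ^ 2 + ζ.im ^ 2 = 1 := by
    have := Complex.sq_norm ζ
    rw [hζ, Complex.normSq_apply] at this
    nlinarith
  have hx1 : 0 ≤ 1 - ζ.re := by
    have := Complex.re_le_norm ζ
    rw [hζ] at this
    linarith
  have h3 : (1 - ζ) ^ 2 = -2 * ((1 - ζ.re : ℝ) : ℂ) * ζ := by
    apply Complex.ext
    · simp [sq]
      nlinarith
    · simp [sq]
      ring
  have h4 : ‖R * ζ - d + R ^ 2 * u * (1 - ζ) ^ 2‖ ^ 2 =
      (R - d) ^ 2 - 2 * R * (1 - ζ.re) * (2 * R ^ 2 * u.re - d - 2 * R ^ 3 +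
        2 * R * (ζ.re * (R ^ 2 - d * u.re) + ζ.im * (d * u.im))) := by
    rw [h3, Complex.sq_norm, Complex.normSq_apply]
    simp [sq]
    have e1 : ζ.im ^ 2 = 1 - ζ.re ^ 2 := by linarith
    have e2 : u.im ^ 2 = 1 - u.re ^ 2 := by linarith
    ring_nf
    simp only [e1, e2]
    ring
  have h5 : ‖R * ζ - d + R ^ 2 * u * (1 - ζ) ^ 2‖ ^ 2 ≤ (R - d) ^ 2 := by
    rw [h4]
    have h6 : 0 ≤ 2 * R ^ 2 * u.re - d - 2 * R ^ 3 +
        2 * R * (ζ.re * (R ^ 2 - d * u.re) + ζ.im * (d * u.im)) := by nlinarith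
    have h7 : 0 ≤ 2 * R * (1 - ζ.re) := by positivity
    nlinarith [mul_nonneg h7 h6]
  exact le_of_sq_le_sq h5 (by linarith)

theorem disk_bound {d R : ℝ} {u ζ : ℂ} (hd : 0 < d) (hdR : d ≤ R) (hu : ‖u‖ = 1)
    (hcond : d + 2 * R ^ 3 + 2 * R * ‖(R : ℂ) ^ 2 - d * u‖ ≤ 2 * R ^ 2 * u.re) (hζ : ‖ζ‖ ≤ 1) :
    ‖R * ζ - d + R ^ 2 * u * (1 - ζ) ^ 2‖ ≤ R - d := by
  have h := Complex.norm_le_of_forall_mem_frontier_norm_le (U := ball (0 : ℂ) 1)
    (f := fun ζ : ℂ => R * ζ - d + R ^ 2 * u * (1 - ζ) ^ 2) (C := R - d) isBounded_ball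
    (Differentiable.diffContOnCl (by fun_prop))
    (fun z hz => by
      rw [frontier_ball _ one_ne_zero, mem_sphere, dist_zero_right] at hz
      exact circle_bound hd hdR hu hcond hz)
    (z := ζ) (by rwa [closure_ball _ one_ne_zero, mem_closedBall, dist_zero_right])
  exact h

theorem planarInv_disk {d R : ℝ} {u : ℂ} (hd : 0 < d) (hdR : d ≤ R) (hu : ‖u‖ = 1)
    (hcond : d + 2 * R ^ 3 + 2 * R * ‖(R : ℂ) ^ 2 - d * u‖ ≤ 2 * R ^ 2 * u.re) :
    PlanarInv (1 / 4 - d * u) d (closedBall (1 / 2 - R * u) R) := by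
  have hR : 0 < R := hd.trans_le hdR
  refine ⟨⟨_, mem_closedBall_self hR.le⟩, isCompact_closedBall _ _, fun c' hc' z hz => ?_⟩
  have hu0 : u ≠ 0 := by
    rintro rfl
    simp at hu
  have hR0 : (R : ℂ) ≠ 0 := by exact_mod_cast hR.ne'
  set ζ : ℂ := (z - (1 / 2 - R * u)) / (R * u) with hζ
  have hz2 : z = 1 / 2 - R * u + R * u * ζ := by
    rw [hζ]
    field_simp
    ring
  have hζ1 : ‖ζ‖ ≤ 1 := by
    rw [mem_closedBall, dist_eq_norm] at hz
    rw [hζ, norm_div, norm_mul, hu, Complex.norm_real, Real.norm_of_nonneg hR.le, mul_one,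
      div_le_one hR]
    exact hz
  have h1 := disk_bound hd hdR hu hcond hζ1
  have h2 : f c' z - (1 / 2 - R * u) =
      u * (R * ζ - d + R ^ 2 * u * (1 - ζ) ^ 2) + (c' - (1 / 4 - d * u)) := by
    simp only [f]
    rw [hz2]
    ring
  rw [mem_closedBall, dist_eq_norm, h2]
  calc _ ≤ ‖u * (R * ζ - d + R ^ 2 * u * (1 - ζ) ^ 2)‖ + ‖c' - (1 / 4 - d * u)‖ := norm_add_le _ _
    _ ≤ (R - d) + d := by
      rw [norm_mul, hu, one_mul]
      exact add_le_add h1 hc'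
    _ = R := by ring

theorem le_rbif_of_planarInv {c : ℂ} {d : ℝ} {K : Set ℂ} (h : PlanarInv c d K) :
    d ≤ rbif c := by
  refine le_csInf ?_ ?_
  · refine ⟨‖c‖ + 4, by positivity, fun hcon => ?_⟩
    rw [hasPlanarMinimal_iff] at hcon
    obtain ⟨K', hK'⟩ := hcon
    have hpos : 0 < ‖c‖ + 4 := by positivity
    obtain ⟨k, W, hW⟩ := exists_cyc hpos hK'
    have h1 := hW.ball_subset_interior hpos
    apply three_not_mem_mandelbrot
    apply interior_subset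
    apply h1
    rw [mem_ball, dist_eq_norm]
    calc ‖(3 : ℂ) - c‖ ≤ ‖(3 : ℂ)‖ + ‖c‖ := norm_sub_le _ _
      _ = 3 + ‖c‖ := by norm_num
      _ < ‖c‖ + 4 := by linarith
  · rintro b ⟨_, hb⟩
    by_contra hcon
    push Not at hcon
    apply hb
    rw [hasPlanarMinimal_iff]
    exact ⟨K, h.mono hcon.le⟩

theorem quarter_mem : (1 / 4 : ℂ) ∈ mandelbrot := by
  refine mem_mandelbrot_of_bounded_subseq (C := 1 / 2) tendsto_id fun m => ?_
  have : ∀ n : ℕ, ‖(f (1 / 4))^[n] 0‖ ≤ 1 / 2 := by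
    intro n
    induction n with
    | zero => simp
    | succ n ih =>
      rw [Function.iterate_succ_apply']
      set w := (f (1 / 4))^[n] 0
      calc ‖w ^ 2 + 1 / 4‖ ≤ ‖w ^ 2‖ + ‖(1 / 4 : ℂ)‖ := norm_add_le _ _
        _ = ‖w‖ ^ 2 + 1 / 4 := by rw [norm_pow]; norm_num
        _ ≤ (1 / 2) ^ 2 + 1 / 4 := by gcongr
        _ = 1 / 2 := by norm_num
  exact this _

theorem gt_quarter_not_mem {ε : ℝ} (hε : 0 < ε) : ((1 / 4 + ε : ℝ) : ℂ) ∉ mandelbrot := by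
  have h1 : ∀ n : ℕ, ∃ x : ℝ, (f ((1 / 4 + ε : ℝ) : ℂ))^[n] 0 = (x : ℂ) ∧ ε * n ≤ x := by
    intro n
    induction n with
    | zero => exact ⟨0, by simp⟩
    | succ n ih =>
      obtain ⟨x, hx1, hx2⟩ := ih
      refine ⟨x ^ 2 + (1 / 4 + ε), ?_, ?_⟩
      · rw [Function.iterate_succ_apply', hx1]
        simp [f]
      · push_cast
        nlinarith [sq_nonneg (x - 1 / 2)]
  intro hmem
  apply hmem
  rw [← tendsto_norm_atTop_iff_cobounded]
  have h2 : Tendsto (fun n : ℕ => ε * (n : ℝ)) atTop atTop :=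
    tendsto_natCast_atTop_atTop.const_mul_atTop hε
  refine tendsto_atTop_mono (fun n => ?_) h2
  obtain ⟨x, hx1, hx2⟩ := h1 n
  rw [hx1, Complex.norm_real]
  exact hx2.trans (le_abs_self x)

theorem quarter_mem_frontier : (1 / 4 : ℂ) ∈ frontier mandelbrot := by
  refine ⟨subset_closure quarter_mem, fun h => ?_⟩
  rw [mem_interior_iff_mem_nhds, Metric.mem_nhds_iff] at h
  obtain ⟨s, hs, hsub⟩ := h
  refine gt_quarter_not_mem (ε := s / 2) (by positivity) (hsub ?_)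
  rw [mem_ball, dist_eq_norm]
  have : (((1 / 4 + s / 2 : ℝ) : ℂ) - 1 / 4) = ((s / 2 : ℝ) : ℂ) := by push_cast; ring
  rw [this, Complex.norm_real, Real.norm_of_nonneg (by positivity)]
  linarith

/-- Sufficient condition for equality. -/
theorem eq_of_cond {c : ℂ} {R : ℝ} (hc : c ≠ 1 / 4) (hR : ‖1 / 4 - c‖ ≤ R)
    (hcond : ‖1 / 4 - c‖ + 2 * R ^ 3 + 2 * R * ‖(R : ℂ) ^ 2 - (1 / 4 - c)‖ ≤
      2 * R ^ 2 * ((1 / 4 - c).re / ‖1 / 4 - c‖)) :
    c ∉ frontier mandelbrot ∧ rbif c = infDist c (frontier mandelbrot) ∧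
      rbif c = ‖c - 1 / 4‖ := by
  set d : ℝ := ‖1 / 4 - c‖ with hd
  have hd0 : 0 < d := norm_pos_iff.2 (sub_ne_zero.2 (Ne.symm hc))
  have hdC : (d : ℂ) ≠ 0 := by exact_mod_cast hd0.ne'
  set u : ℂ := (1 / 4 - c) / d with hu
  have hu1 : ‖u‖ = 1 := by
    rw [hu, norm_div, Complex.norm_real, Real.norm_of_nonneg hd0.le, ← hd, div_self hd0.ne']
  have hdu : (d : ℂ) * u = 1 / 4 - c := by
    rw [hu]
    field_simp
  have hure : u.re = (1 / 4 - c).re / d := by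
    rw [hu, Complex.div_ofReal_re]
  have hinv := planarInv_disk hd0 hR hu1 (by rw [hdu, hure]; exact hcond)
  have hcc : (1 / 4 : ℂ) - d * u = c := by rw [hdu]; ring
  rw [hcc] at hinv
  have h1 : d ≤ rbif c := le_rbif_of_planarInv hinv
  have h2 := rbif_le_infDist c
  have h3 : infDist c (frontier mandelbrot) ≤ d := by
    have := infDist_le_dist_of_mem (x := c) quarter_mem_frontier
    rwa [dist_comm, dist_eq_norm] at this
  refine ⟨fun hf => ?_, by linarith, ?_⟩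
  · have := infDist_zero_of_mem hf
    linarith
  · rw [norm_sub_rev]
    linarith

theorem eventually_eq {x : ℝ} (hx0 : 0 < x) (hx1 : x < 1 / 4) :
    ∀ᶠ c in 𝓝 (x : ℂ), c ∉ frontier mandelbrot ∧ rbif c = infDist c (frontier mandelbrot) ∧
      rbif c = ‖c - 1 / 4‖ := by
  set R : ℝ := 1 / 2 - x with hR
  have hne : (1 / 4 : ℂ) - x ≠ 0 := by
    have : (1 / 4 : ℂ) - x = ((1 / 4 - x : ℝ) : ℂ) := by push_cast; ring
    rw [this]
    exact_mod_cast (by linarith : (1 / 4 - x : ℝ) ≠ 0)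
  have hnorm : ‖(1 / 4 : ℂ) - x‖ = 1 / 4 - x := by
    have : (1 / 4 : ℂ) - x = ((1 / 4 - x : ℝ) : ℂ) := by push_cast; ring
    rw [this, Complex.norm_real, Real.norm_of_nonneg (by linarith)]
  have hnorm2 : ‖(R : ℂ) ^ 2 - ((1 / 4 : ℂ) - x)‖ = x ^ 2 := by
    have : (R : ℂ) ^ 2 - ((1 / 4 : ℂ) - x) = ((x ^ 2 : ℝ) : ℂ) := by
      rw [hR]; push_cast; ring
    rw [this, Complex.norm_real, Real.norm_of_nonneg (by positivity)]
  have hre : ((1 / 4 : ℂ) - x).re = 1 / 4 - x := by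
    have : (1 / 4 : ℂ) - x = ((1 / 4 - x : ℝ) : ℂ) := by push_cast; ring
    rw [this, Complex.ofReal_re]
  have hcont1 : ContinuousAt (fun c : ℂ => ‖1 / 4 - c‖) (x : ℂ) := by fun_prop
  have hcont2 : ContinuousAt (fun c : ℂ => ‖1 / 4 - c‖ + 2 * R ^ 3 +
      2 * R * ‖(R : ℂ) ^ 2 - (1 / 4 - c)‖) (x : ℂ) := by fun_prop
  have hcont3 : ContinuousAt (fun c : ℂ => 2 * R ^ 2 * ((1 / 4 - c).re / ‖1 / 4 - c‖)) (x : ℂ) := by
    refine ContinuousAt.mul continuousAt_const (ContinuousAt.div ?_ hcont1 ?_)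
    · exact (Complex.continuous_re.comp (continuous_const.sub continuous_id)).continuousAt
    · exact norm_ne_zero_iff.2 hne
  have hev1 : ∀ᶠ c in 𝓝 (x : ℂ), ‖1 / 4 - c‖ < R := by
    refine hcont1.eventually_lt_const ?_
    beta_reduce
    rw [hnorm, hR]
    linarith
  have hev2 : ∀ᶠ c in 𝓝 (x : ℂ), ‖1 / 4 - c‖ + 2 * R ^ 3 +
      2 * R * ‖(R : ℂ) ^ 2 - (1 / 4 - c)‖ < 2 * R ^ 2 * ((1 / 4 - c).re / ‖1 / 4 - c‖) := by
    refine hcont2.eventually_lt hcont3 ?_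
    rw [hnorm, hnorm2, hre, div_self (by linarith), mul_one, hR]
    nlinarith [mul_pos hx0 hx0, mul_pos hx0 (sub_pos.2 hx1), pow_pos hx0 3]
  have hev3 : ∀ᶠ c in 𝓝 (x : ℂ), c ≠ 1 / 4 := by
    refine isOpen_ne.mem_nhds ?_
    intro h
    apply hne
    rw [← h]; simp
  filter_upwards [hev1, hev2, hev3] with c h1 h2 h3
  exact eq_of_cond h3 h1.le h2.le

end Pool.Agent.Lib.MP_77ccbb_an
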