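import Pool.Agent.Lib.MP_77ccbb_an.Structure

/-!
The Earle-Hamilton fixed point theorem in one complex variable.
-/

open Set Filter Topology Metric

namespace Pool.Agent.Lib.MP_77ccbb_an

section EH

variable {W : Set ℂ} {F : ℂ → ℂ} {ε R : ℝ}

theorem eh_backward (hW : IsOpen W) (hR : W ⊆ closedBall 0 R) (hF : Differentiable ℂ F)
    (hε : 0 < ε) (hmap : ∀ z ∈ W, ball (F z) ε ⊆ W) {κ : ℝ} (hκ : 0 < κ) (hκR : κ * (2 * R) < ε)
    (n : ℕ) : ∀ z ∈ W, ∀ g : ℂ → ℂ, DifferentiableOn ℂ g W → (∀ w ∈ W, g w ∈ closedBall (0:ℂ) R) →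
      ∃ h : ℂ → ℂ, DifferentiableOn ℂ h W ∧ (∀ w ∈ W, h w ∈ closedBall (0:ℂ) R) ∧
        HasDerivAt h (((1 + κ : ℝ) : ℂ) ^ n * (deriv g (F^[n] z) * deriv F^[n] z)) z := by
  have hFW : ∀ z ∈ W, F z ∈ W := fun z hz => hmap z hz (mem_ball_self hε)
  have hFdiff : ∀ n, Differentiable ℂ F^[n] := fun n => hF.iterate n
  induction n with
  | zero =>
    intro z hz g hg hgR
    refine ⟨g, hg, hgR, ?_⟩
    have h1 := (hg.differentiableAt (hW.mem_nhds hz)).hasDerivAt
    simpa using h1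
  | succ n ih =>
    intro z hz g hg hgR
    obtain ⟨h1, hh1, hh1R, hh1d⟩ := ih (F z) (hFW z hz) g hg hgR
    set G : ℂ → ℂ := fun w => F w + (κ : ℂ) * (F w - F z) with hG
    have hGW : ∀ w ∈ W, G w ∈ W := by
      intro w hw
      apply hmap w hw
      rw [mem_ball, dist_eq_norm]
      have e1 : G w - F w = (κ : ℂ) * (F w - F z) := by rw [hG]; ring
      rw [e1, norm_mul, Complex.norm_real, Real.norm_of_nonneg hκ.le]
      have e2 := hR (hFW w hw)
      have e3 := hR (hFW z hz)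
      rw [mem_closedBall, dist_zero_right] at e2 e3
      have e4 := norm_sub_le (F w) (F z)
      calc κ * ‖F w - F z‖ ≤ κ * (2 * R) := by gcongr; linarith
        _ < ε := hκR
    have hGd : Differentiable ℂ G := by
      rw [hG]
      exact hF.add ((hF.sub_const _).const_mul _)
    have hGz : G z = F z := by rw [hG]; ring
    have hGderiv : HasDerivAt G (((1 + κ : ℝ) : ℂ) * deriv F z) z := by
      have e1 := (hF z).hasDerivAt
      have e2 := e1.add ((e1.sub_const (F z)).const_mul (κ : ℂ))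
      convert! e2 using 1
      push_cast
      ring
    refine ⟨h1 ∘ G, hh1.comp hGd.differentiableOn hGW, fun w hw => hh1R _ (hGW w hw), ?_⟩
    have e5 : HasDerivAt h1 (((1 + κ : ℝ) : ℂ) ^ n *
        (deriv g (F^[n] (F z)) * deriv F^[n] (F z))) (G z) := by
      rw [hGz]; exact hh1d
    have e6 := e5.comp z hGderiv
    have e7 : deriv F^[n + 1] z = deriv F^[n] (F z) * deriv F z := by
      rw [Function.iterate_succ]
      exact deriv_comp z (hFdiff n _) (hF z)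
    rw [e7, Function.iterate_succ_apply]
    convert! e6 using 1
    ring

theorem eh_deriv (hW : IsOpen W) (hR : W ⊆ closedBall 0 R) (hF : Differentiable ℂ F)
    (hε : 0 < ε) (hmap : ∀ z ∈ W, ball (F z) ε ⊆ W) {κ : ℝ} (hκ : 0 < κ) (hκR : κ * (2 * R) < ε)
    {z : ℂ} {s : ℝ} (hs : 0 < s) (hz : ball z s ⊆ W) (n : ℕ) :
    ‖deriv F^[n] z‖ ≤ 2 * R / s * ((1 + κ)⁻¹) ^ n := by
  have hzW : z ∈ W := hz (mem_ball_self hs)
  obtain ⟨h, hh, hhR, hhd⟩ := eh_backward hW hR hF hε hmap hκ hκR n z hzW id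
    differentiableOn_id (fun w hw => hR hw)
  have h1 : ‖deriv h z‖ ≤ 2 * R / s := by
    refine Complex.norm_deriv_le_div_of_mapsTo_ball (hh.mono hz) (fun w hw => ?_) hs
    rw [mem_closedBall, dist_eq_norm]
    have h5 := hhR w (hz hw)
    have h6 := hhR z hzW
    rw [mem_closedBall, dist_zero_right] at h5 h6
    have h7 := norm_sub_le (h w) (h z)
    linarith
  rw [hhd.deriv] at h1
  simp only [deriv_id, one_mul] at h1
  rw [norm_mul, norm_pow, Complex.norm_real, Real.norm_of_nonneg (by linarith)] at h1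
  have h2 : (0 : ℝ) < (1 + κ) ^ n := by positivity
  rw [inv_pow, ← div_eq_mul_inv, le_div_iff₀ h2]
  linarith

theorem eh_lip (hW : IsOpen W) (hR : W ⊆ closedBall 0 R) (hF : Differentiable ℂ F)
    (hε : 0 < ε) (hmap : ∀ z ∈ W, ball (F z) ε ⊆ W) {κ : ℝ} (hκ : 0 < κ) (hκR : κ * (2 * R) < ε)
    {z : ℂ} {s : ℝ} (hs : 0 < s) (hz : ball z (2 * s) ⊆ W) (n : ℕ) {w : ℂ} (hw : w ∈ ball z s) :
    ‖F^[n] w - F^[n] z‖ ≤ 2 * R / s * ((1 + κ)⁻¹) ^ n * ‖w - z‖ := by
  refine (convex_ball z s).norm_image_sub_le_of_norm_deriv_le (𝕜 := ℂ) (f := F^[n])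
    (fun x _ => hF.iterate n x) (fun x hx => ?_) (mem_ball_self hs) hw
  refine eh_deriv hW hR hF hε hmap hκ hκR hs ?_ n
  refine Subset.trans (ball_subset_ball' ?_) hz
  rw [mem_ball] at hx
  linarith

/-- **Earle-Hamilton**. -/
theorem earle_hamilton (hW : IsOpen W) (hc : IsPreconnected W) (hne : W.Nonempty)
    (hR : W ⊆ closedBall 0 R) (hF : Differentiable ℂ F)
    (hε : 0 < ε) (hmap : ∀ z ∈ W, ball (F z) ε ⊆ W) :
    ∃ q ∈ W, F q = q ∧ ‖deriv F q‖ < 1 := by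
  obtain ⟨z₀, hz₀⟩ := hne
  have hR0 : 0 ≤ R := by
    have := hR hz₀
    rw [mem_closedBall, dist_zero_right] at this
    exact (norm_nonneg _).trans this
  obtain ⟨κ, hκ, hκR⟩ : ∃ κ : ℝ, 0 < κ ∧ κ * (2 * R) < ε := by
    refine ⟨ε / (2 * R + 1), by positivity, ?_⟩
    rw [div_mul_eq_mul_div, div_lt_iff₀ (by positivity)]
    nlinarith
  have hFW : ∀ z ∈ W, F z ∈ W := fun z hz => hmap z hz (mem_ball_self hε)
  have hFWn : ∀ n, ∀ z ∈ W, F^[n] z ∈ W := by
    intro n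
    induction n with
    | zero => exact fun z hz => hz
    | succ n ih =>
      intro z hz
      rw [Function.iterate_succ_apply]
      exact ih _ (hFW z hz)
  set θ : ℝ := (1 + κ)⁻¹ with hθ
  have hθ0 : 0 < θ := by positivity
  have hθ1 : θ < 1 := inv_lt_one_of_one_lt₀ (by linarith)
  -- uniform contraction of orbits
  have hcontr : ∀ z ∈ W, ∀ w ∈ W, ∃ C : ℝ, ∀ n, ‖F^[n] w - F^[n] z‖ ≤ C * θ ^ n := by
    intro z hz w hw
    refine hc.induction₂ (fun z w => ∃ C : ℝ, ∀ n, ‖F^[n] w - F^[n] z‖ ≤ C * θ ^ n)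
      ?_ ?_ ?_ hz hw
    · intro x hx
      obtain ⟨s, hs, hsub⟩ := Metric.isOpen_iff.1 hW x hx
      have hs2 : 0 < s / 2 := by positivity
      refine mem_nhdsWithin_of_mem_nhds ?_
      filter_upwards [ball_mem_nhds x hs2] with y hy
      refine ⟨2 * R / (s / 2) * ‖y - x‖, fun n => ?_⟩
      have := eh_lip hW hR hF hε hmap hκ hκR hs2 (by convert hsub using 2; ring) n hy
      calc _ ≤ _ := this
        _ = _ := by ring
    · rintro x y z _ _ _ ⟨C1, h1⟩ ⟨C2, h2⟩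
      refine ⟨C2 + C1, fun n => ?_⟩
      calc ‖F^[n] z - F^[n] x‖ = ‖(F^[n] z - F^[n] y) + (F^[n] y - F^[n] x)‖ := by ring_nf
        _ ≤ ‖F^[n] z - F^[n] y‖ + ‖F^[n] y - F^[n] x‖ := norm_add_le _ _
        _ ≤ C2 * θ ^ n + C1 * θ ^ n := add_le_add (h2 n) (h1 n)
        _ = (C2 + C1) * θ ^ n := by ring
    · rintro x y _ _ ⟨C, h⟩
      refine ⟨C, fun n => ?_⟩
      rw [norm_sub_rev]
      exact h n
  obtain ⟨C, hC⟩ := hcontr z₀ hz₀ (F z₀) (hFW z₀ hz₀)
  have hcauchy : CauchySeq fun n => F^[n] z₀ := by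
    refine cauchySeq_of_le_geometric θ C hθ1 fun n => ?_
    rw [dist_comm, dist_eq_norm, Function.iterate_succ_apply]
    exact hC n
  obtain ⟨q, hq⟩ := cauchySeq_tendsto_of_complete hcauchy
  have hFq : F q = q := by
    have h1 : Tendsto (fun n => F^[n + 1] z₀) atTop (𝓝 q) := hq.comp (tendsto_add_atTop_nat 1)
    have h2 : Tendsto (fun n => F^[n + 1] z₀) atTop (𝓝 (F q)) := by
      simp only [Function.iterate_succ_apply']
      exact (hF.continuous.tendsto q).comp hq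
    exact tendsto_nhds_unique h2 h1
  have hqW : q ∈ W := by
    have h1 : Tendsto (fun n => F^[n + 1] z₀) atTop (𝓝 q) := hq.comp (tendsto_add_atTop_nat 1)
    obtain ⟨n, hn⟩ := (h1.eventually (ball_mem_nhds q hε)).exists
    rw [Function.iterate_succ_apply'] at hn
    refine hmap _ (hFWn n z₀ hz₀) ?_
    rwa [mem_ball, dist_comm]
  refine ⟨q, hqW, hFq, ?_⟩
  obtain ⟨s, hs, hsub⟩ := Metric.isOpen_iff.1 hW q hqW
  by_contra hcon
  push Not at hcon
  have h1 : ∀ n, 1 ≤ 2 * R / s * θ ^ n := by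
    intro n
    have h2 := eh_deriv hW hR hF hε hmap hκ hκR hs hsub n
    have h3 : deriv F^[n] q = deriv F q ^ n :=
      (HasDerivAt.iterate q (hF q).hasDerivAt hFq n).deriv
    rw [h3, norm_pow] at h2
    exact (one_le_pow₀ hcon).trans h2
  have h2 : Tendsto (fun n : ℕ => 2 * R / s * θ ^ n) atTop (𝓝 0) := by
    have := (tendsto_pow_atTop_nhds_zero_of_lt_one hθ0.le hθ1).const_mul (2 * R / s)
    simpa using this
  have := ge_of_tendsto' h2 h1
  linarith

end EH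

end Pool.Agent.Lib.MP_77ccbb_an
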