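import Pool.Agent.Lib.MP_77ccbb_an.Basic

/-!
Fatou's theorem for quadratic polynomials: if `f_c` has an attracting cycle then `c` lies in the
interior of the Mandelbrot set.
-/

open Set Filter Topology Metric

namespace Pool.Agent.Lib.MP_77ccbb_an

theorem hasDerivAt_f (c z : ℂ) : HasDerivAt (f c) (2 * z) z := by
  have h : HasDerivAt (f c) (((2 : ℕ) : ℂ) * z ^ (2 - 1)) z :=
    (hasDerivAt_pow 2 z).add_const c
  convert! h using 1
  norm_num

theorem differentiable_f (c : ℂ) : Differentiable ℂ (f c) := fun z =>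
  (hasDerivAt_f c z).differentiableAt

theorem differentiable_iter (c : ℂ) (n : ℕ) : Differentiable ℂ (f c)^[n] := by
  induction n with
  | zero => exact differentiable_id
  | succ n ih =>
    rw [Function.iterate_succ]
    exact ih.comp (differentiable_f c)

theorem continuous_iter (n : ℕ) : Continuous fun p : ℂ × ℂ => (f p.1)^[n] p.2 := by
  induction n with
  | zero => exact continuous_snd
  | succ n ih =>
    have : (fun p : ℂ × ℂ => (f p.1)^[n + 1] p.2) =
        fun p : ℂ × ℂ => ((f p.1)^[n] p.2) ^ 2 + p.1 := by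
      ext p
      rw [Function.iterate_succ_apply']
      rfl
    rw [this]
    fun_prop

/-- Escape: outside the disk of radius `1 + ‖c‖` orbits tend to infinity. -/
theorem escape_bound (c z : ℂ) (hz : 1 + ‖c‖ < ‖z‖) (n : ℕ) :
    (‖z‖ - ‖c‖) ^ n * ‖z‖ ≤ ‖(f c)^[n] z‖ := by
  have hc := norm_nonneg c
  have hlam : 1 < ‖z‖ - ‖c‖ := by linarith
  induction n with
  | zero => simp
  | succ n ih =>
    rw [Function.iterate_succ_apply']
    set w := (f c)^[n] z with hw
    have h1 : 1 ≤ (‖z‖ - ‖c‖) ^ n := one_le_pow₀ hlam.le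
    have h2 : ‖z‖ ≤ ‖w‖ := by
      refine le_trans ?_ ih
      nlinarith
    have h3 : ‖w‖ ^ 2 - ‖c‖ ≤ ‖f c w‖ := by
      have : ‖w ^ 2‖ ≤ ‖w ^ 2 + c‖ + ‖c‖ := by
        calc ‖w ^ 2‖ = ‖(w ^ 2 + c) - c‖ := by ring_nf
          _ ≤ _ := norm_sub_le _ _
      rw [norm_pow] at this
      change ‖w‖ ^ 2 - ‖c‖ ≤ ‖w ^ 2 + c‖
      linarith
    have h4 : (‖z‖ - ‖c‖) * ‖w‖ ≤ ‖w‖ ^ 2 - ‖c‖ := by nlinarith
    calc (‖z‖ - ‖c‖) ^ (n + 1) * ‖z‖ = (‖z‖ - ‖c‖) * ((‖z‖ - ‖c‖) ^ n * ‖z‖) := by ring
      _ ≤ (‖z‖ - ‖c‖) * ‖w‖ := by gcongr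
      _ ≤ ‖f c w‖ := h4.trans h3

theorem escape (c z : ℂ) (hz : 1 + ‖c‖ < ‖z‖) :
    Tendsto (fun n : ℕ => ‖(f c)^[n] z‖) atTop atTop := by
  have hc := norm_nonneg c
  have h1 : Tendsto (fun n : ℕ => (‖z‖ - ‖c‖) ^ n * ‖z‖) atTop atTop := by
    apply Tendsto.atTop_mul_const (by linarith)
    exact tendsto_pow_atTop_atTop_of_one_lt (by linarith)
  exact tendsto_atTop_mono (escape_bound c z hz) h1

/-- A holomorphic non-vanishing function on a disk has a holomorphic square root. -/
theorem exists_sqrt {q : ℂ} {s : ℝ} (hs : 0 < s) {u : ℂ → ℂ}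
    (hu : DifferentiableOn ℂ u (ball q s)) (h0 : ∀ z ∈ ball q s, u z ≠ 0) (b : ℂ)
    (hb : b ^ 2 = u q) :
    ∃ h : ℂ → ℂ, DifferentiableOn ℂ h (ball q s) ∧ (∀ z ∈ ball q s, h z ^ 2 = u z) ∧
      h q = b := by
  have hlog : DifferentiableOn ℂ (fun z => deriv u z / u z) (ball q s) :=
    (hu.deriv isOpen_ball).div hu h0
  obtain ⟨L, hLq, hL⟩ := hlog.isExactOn_ball.with_val_at q 0
  have hud : ∀ z ∈ ball q s, HasDerivAt u (deriv u z) z := fun z hz =>
    (hu.differentiableAt (isOpen_ball.mem_nhds hz)).hasDerivAt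
  have hG : ∀ z ∈ ball q s, HasDerivAt (fun z => u z * Complex.exp (-L z)) 0 z := by
    intro z hz
    have h1 := (hud z hz).mul ((hL z hz).neg.cexp)
    have h2 := h0 z hz
    convert! h1 using 1
    field_simp
    ring
  have hconst : ∀ z ∈ ball q s, u z * Complex.exp (-L z) = u q := by
    intro z hz
    have h1 := (convex_ball q s).is_const_of_fderivWithin_eq_zero (𝕜 := ℂ)
      (f := fun z => u z * Complex.exp (-L z))
      (fun w hw => (hG w hw).differentiableAt.differentiableWithinAt)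
      (fun w hw => by
        have h2 := (hG w hw).hasFDerivAt.hasFDerivWithinAt (s := ball q s)
        rw [h2.fderivWithin (isOpen_ball.uniqueDiffWithinAt hw)]
        ext
        simp) hz (mem_ball_self hs)
    rw [h1, hLq]
    simp
  have huexp : ∀ z ∈ ball q s, u z = u q * Complex.exp (L z) := by
    intro z hz
    rw [← hconst z hz, mul_assoc, ← Complex.exp_add]
    simp
  refine ⟨fun z => b * Complex.exp (L z / 2), ?_, ?_, ?_⟩
  · intro z hz
    have := ((hL z hz).div_const 2).cexp.const_mul b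
    exact this.differentiableAt.differentiableWithinAt
  · intro z hz
    simp only
    rw [huexp z hz, mul_pow, hb, ← Complex.exp_nat_mul]
    congr 2
    push_cast
    ring
  · simp [hLq]

/-- Non-escaping orbits: a subsequence staying in a bounded set shows `c ∈ mandelbrot`. -/
theorem mem_mandelbrot_of_bounded_subseq {c : ℂ} {C : ℝ} {φ : ℕ → ℕ} (hφ : Tendsto φ atTop atTop)
    (h : ∀ m, ‖(f c)^[φ m] 0‖ ≤ C) : c ∈ mandelbrot := by
  intro hlim
  have h1 : Tendsto (fun m => ‖(f c)^[φ m] 0‖) atTop atTop :=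
    (tendsto_norm_atTop_iff_cobounded.2 hlim).comp hφ
  obtain ⟨m, hm⟩ := (h1.eventually_gt_atTop C).exists
  exact absurd (h m) (not_le.2 hm)

/-- **Fatou's theorem** in the form needed here. -/
theorem fatou {c q : ℂ} {k : ℕ} (hk : 1 ≤ k) (hq : (f c)^[k] q = q)
    (hd : ‖deriv (f c)^[k] q‖ < 1) : c ∈ interior mandelbrot := by
  set F : ℂ → ℂ := (f c)^[k] with hF
  set D : ℂ := deriv F q with hD
  have hFd : HasDerivAt F D q := (differentiable_iter c k q).hasDerivAt
  obtain ⟨lam, hlam1, hlam2⟩ := exists_between hd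
  have hlam0 : 0 ≤ lam := (norm_nonneg _).trans hlam1.le
  -- a disk on which `F` contracts to `q`
  obtain ⟨s, hs, hcontr⟩ : ∃ s > 0, ∀ z ∈ ball q s, ‖F z - q‖ ≤ lam * ‖z - q‖ := by
    have h1 := hFd.isLittleO
    rw [Asymptotics.isLittleO_iff] at h1
    have h2 := h1 (sub_pos.2 hlam1)
    rw [Metric.eventually_nhds_iff_ball] at h2
    obtain ⟨s, hs, h3⟩ := h2
    refine ⟨s, hs, fun z hz => ?_⟩
    have h4 := h3 z hz
    rw [hq] at h4
    have h5 : F z - q = (F z - q - (z - q) • D) + (z - q) • D := by ring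
    rw [h5]
    refine (norm_add_le _ _).trans ?_
    rw [norm_smul]
    nlinarith [norm_nonneg (z - q)]
  have hmaps : ∀ z ∈ ball q s, F z ∈ ball q s := by
    intro z hz
    have h1 := hcontr z hz
    rw [mem_ball, dist_eq_norm] at hz ⊢
    nlinarith [norm_nonneg (z - q)]
  have hmaps' : ∀ m : ℕ, ∀ z ∈ ball q s, F^[m] z ∈ ball q s := by
    intro m
    induction m with
    | zero => exact fun z hz => hz
    | succ m ih =>
      intro z hz
      rw [Function.iterate_succ_apply]
      exact ih _ (hmaps z hz)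
  -- the basin
  set A : Set ℂ := {z | ∃ n, (f c)^[n] z ∈ ball q s} with hA
  have hAback : ∀ z, f c z ∈ A → z ∈ A := by
    rintro z ⟨n, hn⟩
    exact ⟨n + 1, by rwa [Function.iterate_succ_apply]⟩
  have hAbdd : ∀ z ∈ A, ‖z‖ ≤ 1 + ‖c‖ := by
    rintro z ⟨n, hn⟩
    by_contra hcon
    push Not at hcon
    have h1 := (escape c z hcon).comp
      (tendsto_atTop_mono (fun m : ℕ => (by nlinarith : m ≤ n + k * m)) tendsto_id)
    obtain ⟨m, hm⟩ := (h1.eventually_gt_atTop (‖q‖ + s)).exists
    have h2 : (f c)^[n + k * m] z ∈ ball q s := by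
      rw [add_comm, Function.iterate_add_apply, Function.iterate_mul]
      exact hmaps' m _ hn
    rw [mem_ball, dist_eq_norm] at h2
    have h3 : ‖(f c)^[n + k * m] z‖ ≤ ‖q‖ + ‖(f c)^[n + k * m] z - q‖ := by
      calc _ = ‖q + ((f c)^[n + k * m] z - q)‖ := by ring_nf
        _ ≤ _ := norm_add_le _ _
    have h4 : ‖q‖ + s < ‖(f c)^[n + k * m] z‖ := hm
    linarith
  -- the critical point lies in the basin
  have h0A : (0 : ℂ) ∈ A := by
    by_contra h0
    have hcA : c ∉ A := by
      intro hc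
      apply h0
      apply hAback
      have : f c 0 = c := by simp [f]
      rwa [this]
    -- inverse branches
    have hinv : ∀ n : ℕ, ∃ g : ℂ → ℂ, DifferentiableOn ℂ g (ball q s) ∧
        (∀ z ∈ ball q s, g z ∈ A) ∧ (∀ z ∈ ball q s, (f c)^[n] (g z) = z) ∧
        g q = (f c)^[(k - 1) * n] q := by
      intro n
      induction n with
      | zero =>
        exact ⟨id, differentiableOn_id, fun z hz => ⟨0, hz⟩, fun z _ => rfl, by simp⟩
      | succ n ih =>
        obtain ⟨g, hg1, hg2, hg3, hg4⟩ := ih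
        have hb : ((f c)^[(k - 1) * (n + 1)] q) ^ 2 = g q - c := by
          have h1 : f c ((f c)^[(k - 1) * (n + 1)] q) = (f c)^[(k - 1) * n] q := by
            rw [← Function.iterate_succ_apply' (f c)]
            have h2 : ((k - 1) * (n + 1)).succ = (k - 1) * n + k := by
              have : k - 1 + 1 = k := Nat.sub_add_cancel hk
              rw [Nat.succ_eq_add_one, mul_add, mul_one, add_assoc, this]
            rw [h2, Function.iterate_add_apply]
            congr 1
          rw [hg4, ← h1]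
          simp [f]
        obtain ⟨h, hh1, hh2, hh3⟩ := exists_sqrt hs (hg1.sub_const c) (fun z hz hz0 => by
          have : g z = c := sub_eq_zero.1 hz0
          exact hcA (this ▸ hg2 z hz)) _ hb
        have hfh : ∀ z ∈ ball q s, f c (h z) = g z := by
          intro z hz
          change h z ^ 2 + c = g z
          rw [hh2 z hz]
          ring
        refine ⟨h, hh1, fun z hz => hAback _ ?_, fun z hz => ?_, hh3⟩
        · rw [hfh z hz]
          exact hg2 z hz
        · rw [Function.iterate_succ_apply, hfh z hz]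
          exact hg3 z hz
    -- contradiction with Cauchy's estimate
    have hbound : ∀ m : ℕ, 1 ≤ ‖D‖ ^ m * (2 * (1 + ‖c‖) / s) := by
      intro m
      obtain ⟨g, hg1, hg2, hg3, hg4⟩ := hinv (k * m)
      have hgq : g q = q := by
        rw [hg4]
        have h1 : (k - 1) * (k * m) = k * ((k - 1) * m) := by ring
        rw [h1, Function.iterate_mul]
        exact Function.iterate_fixed hq _
      have hgd : HasDerivAt g (deriv g q) q :=
        (hg1.differentiableAt (isOpen_ball.mem_nhds (mem_ball_self hs))).hasDerivAt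
      have h1 : HasDerivAt (fun z => F^[m] (g z)) (D ^ m * deriv g q) q := by
        have h2 : HasDerivAt F^[m] (D ^ m) (g q) := by
          rw [hgq]
          exact HasDerivAt.iterate q hFd hq m
        exact h2.comp q hgd
      have h2 : HasDerivAt (fun z => F^[m] (g z)) 1 q := by
        refine (hasDerivAt_id q).congr_of_eventuallyEq ?_
        filter_upwards [isOpen_ball.mem_nhds (mem_ball_self hs)] with z hz
        have := hg3 z hz
        rw [Function.iterate_mul] at this
        exact this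
      have h3 : D ^ m * deriv g q = 1 := h1.unique h2
      have h4 : ‖deriv g q‖ ≤ 2 * (1 + ‖c‖) / s := by
        refine Complex.norm_deriv_le_div_of_mapsTo_ball hg1 (fun z hz => ?_) hs
        rw [mem_closedBall, dist_eq_norm]
        have h5 := hAbdd _ (hg2 z hz)
        have h6 := hAbdd _ (hg2 q (mem_ball_self hs))
        have h7 := norm_sub_le (g z) (g q)
        linarith
      calc (1 : ℝ) = ‖D ^ m * deriv g q‖ := by rw [h3, norm_one]
        _ = ‖D‖ ^ m * ‖deriv g q‖ := by rw [norm_mul, norm_pow]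
        _ ≤ ‖D‖ ^ m * (2 * (1 + ‖c‖) / s) := by gcongr
    have hlim : Tendsto (fun m : ℕ => ‖D‖ ^ m * (2 * (1 + ‖c‖) / s)) atTop (𝓝 0) := by
      have := (tendsto_pow_atTop_nhds_zero_of_lt_one (norm_nonneg D) hd).mul_const
        (2 * (1 + ‖c‖) / s)
      simpa using this
    have := ge_of_tendsto' hlim hbound
    linarith
  -- stability in the parameter
  obtain ⟨n₀, hn₀⟩ := h0A
  rw [mem_ball, dist_eq_norm] at hn₀
  obtain ⟨ρ, hρ1, hρ2⟩ := exists_between hn₀
  have hρ0 : 0 < ρ := (norm_nonneg _).trans_lt hρ1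
  have hev1 : ∀ᶠ c' in 𝓝 c, ‖(f c')^[n₀] 0 - q‖ < ρ := by
    have hcont : Continuous fun c' : ℂ => ‖(f c')^[n₀] 0 - q‖ := by
      have := (continuous_iter n₀).comp (Continuous.prodMk_left (0 : ℂ) : Continuous fun c' : ℂ => (c', (0 : ℂ)))
      exact (this.sub continuous_const).norm
    exact (hcont.tendsto c).eventually_lt_const hρ1
  have hev2 : ∀ᶠ c' in 𝓝 c, ∀ z ∈ closedBall q ρ, ‖(f c')^[k] z - q‖ < ρ := by
    refine (isCompact_closedBall q ρ).eventually_forall_of_forall_eventually fun z hz => ?_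
    have hcont : Continuous fun p : ℂ × ℂ => ‖(f p.1)^[k] p.2 - q‖ :=
      ((continuous_iter k).sub continuous_const).norm
    refine (hcont.tendsto (c, z)).eventually_lt_const ?_
    have hz' : ‖z - q‖ ≤ ρ := by rwa [mem_closedBall, dist_eq_norm] at hz
    have h1 := hcontr z (by rw [mem_ball, dist_eq_norm]; linarith)
    simp only
    calc ‖F z - q‖ ≤ lam * ‖z - q‖ := h1
      _ ≤ lam * ρ := by gcongr
      _ < ρ := by nlinarith
  rw [mem_interior_iff_mem_nhds]
  filter_upwards [hev1, hev2] with c' h1 h2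
  have h3 : ∀ m : ℕ, ‖(f c')^[n₀ + k * m] 0 - q‖ ≤ ρ := by
    intro m
    induction m with
    | zero => simpa using h1.le
    | succ m ih =>
      have : n₀ + k * (m + 1) = k + (n₀ + k * m) := by ring
      rw [this, Function.iterate_add_apply]
      exact (h2 _ (by rwa [mem_closedBall, dist_eq_norm])).le
  refine mem_mandelbrot_of_bounded_subseq (C := ‖q‖ + ρ) (φ := fun m => n₀ + k * m)
    (tendsto_atTop_mono (fun m : ℕ => (by nlinarith : m ≤ n₀ + k * m)) tendsto_id) fun m => ?_
  calc ‖(f c')^[n₀ + k * m] 0‖ = ‖q + ((f c')^[n₀ + k * m] 0 - q)‖ := by ring_nf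
    _ ≤ ‖q‖ + ρ := (norm_add_le _ _).trans (by linarith [h3 m])

end Pool.Agent.Lib.MP_77ccbb_an
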