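import Mathlib

/-!
Ultrafilter limits of uniformly bounded holomorphic functions, and a Cartan type theorem:
iterates of a holomorphic self-map of a bounded domain with a neutral fixed point return to the
identity.
-/

open Set Filter Topology Metric

namespace Pool.Agent.Lib.MP_77ccbb_an

theorem exists_ultralimit {W : Set ℂ} (hW : IsOpen W) {R : ℝ} {g : ℕ → ℂ → ℂ}
    (hg : ∀ n, DifferentiableOn ℂ (g n) W) (hgR : ∀ n, ∀ z ∈ W, ‖g n z‖ ≤ R)
    (𝒰 : Ultrafilter ℕ) :
    ∃ G : ℂ → ℂ, DifferentiableOn ℂ G W ∧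
      (∀ z ∈ W, Tendsto (fun n => g n z) 𝒰 (𝓝 (G z))) ∧
      (∀ z ∈ W, Tendsto (fun n => deriv (g n) z) 𝒰 (𝓝 (deriv G z))) := by
  have hlim : ∀ z : ℂ, ∃ a : ℂ, z ∈ W → Tendsto (fun n => g n z) 𝒰 (𝓝 a) := by
    intro z
    by_cases hz : z ∈ W
    · obtain ⟨a, _, ha⟩ := (isCompact_closedBall (0 : ℂ) R).ultrafilter_le_nhds
        (𝒰.map fun n => g n z) (by
          rw [le_principal_iff, Ultrafilter.mem_coe, Ultrafilter.mem_map]
          refine Filter.univ_mem' fun n => ?_
          rw [mem_preimage, mem_closedBall, dist_zero_right]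
          exact hgR n z hz)
      exact ⟨a, fun _ => ha⟩
    · exact ⟨0, fun h => absurd h hz⟩
  choose G hG using hlim
  have hunif : TendstoLocallyUniformlyOn g G 𝒰 W := by
    rw [Metric.tendstoLocallyUniformlyOn_iff]
    intro ε hε x hx
    obtain ⟨s, hs, hsub⟩ := Metric.isOpen_iff.1 hW x hx
    have hR0 : 0 ≤ R := (norm_nonneg _).trans (hgR 0 x hx)
    have hL : 0 ≤ 2 * R / s := by positivity
    have hlip : ∀ n, ∀ y ∈ ball x s, dist (g n y) (g n x) ≤ 2 * R / s * dist y x := by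
      intro n y hy
      refine Complex.dist_le_div_mul_dist_of_mapsTo_ball ((hg n).mono hsub) (fun w hw => ?_) hy
      rw [mem_closedBall, dist_eq_norm]
      have h1 := norm_sub_le (g n w) (g n x)
      have h2 := hgR n w (hsub hw)
      have h3 := hgR n x hx
      linarith
    have hlipG : ∀ y ∈ ball x s, dist (G y) (G x) ≤ 2 * R / s * dist y x := by
      intro y hy
      exact le_of_tendsto ((hG y (hsub hy)).dist (hG x hx)) (Eventually.of_forall fun n =>
        hlip n y hy)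
    obtain ⟨η, hη0, hηs, hηε⟩ : ∃ η > 0, η ≤ s ∧ 2 * R / s * η ≤ ε / 4 := by
      refine ⟨min s (ε / 4 / (2 * R / s + 1)), by positivity, min_le_left _ _, ?_⟩
      calc 2 * R / s * min s (ε / 4 / (2 * R / s + 1))
          ≤ (2 * R / s + 1) * (ε / 4 / (2 * R / s + 1)) := by
            gcongr
            · linarith
            · exact min_le_right _ _
        _ = ε / 4 := by field_simp
    refine ⟨ball x η, mem_nhdsWithin_of_mem_nhds (ball_mem_nhds x hη0), ?_⟩
    have hev : ∀ᶠ n in (𝒰 : Filter ℕ), dist (g n x) (G x) < ε / 4 :=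
      (hG x hx).eventually (ball_mem_nhds _ (by positivity))
    filter_upwards [hev] with n hn y hy
    have hy' : y ∈ ball x s := ball_subset_ball hηs hy
    have h1 := hlip n y hy'
    have h2 := hlipG y hy'
    have h3 : 2 * R / s * dist y x ≤ ε / 4 := by
      refine le_trans ?_ hηε
      gcongr
      exact (mem_ball.1 hy).le
    have h4 := dist_triangle4 (G y) (G x) (g n x) (g n y)
    rw [dist_comm (G x), dist_comm (g n x) (g n y)] at h4
    linarith
  refine ⟨G, hunif.differentiableOn (Eventually.of_forall hg) hW, fun z hz => hG z hz, ?_⟩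
  intro z hz
  exact (hunif.deriv (Eventually.of_forall hg) hW).tendsto_at hz

/-- A Cartan type theorem. -/
theorem exists_ultrafilter_iterate_tendsto {W : Set ℂ} (hW : IsOpen W) (hc : IsPreconnected W)
    {R : ℝ} (hR : ∀ z ∈ W, ‖z‖ ≤ R) {F : ℂ → ℂ} (hF : Differentiable ℂ F)
    (hFW : ∀ z ∈ W, F z ∈ W) {q : ℂ} (hq : q ∈ W) (hFq : F q = q) (hd : ‖deriv F q‖ = 1) :
    ∃ 𝒰 : Ultrafilter ℕ, (𝒰 : Filter ℕ) ≤ atTop ∧
      ∀ z ∈ W, Tendsto (fun n => F^[n] z) 𝒰 (𝓝 z) := by
  set μ : ℂ := deriv F q with hμ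
  have hμ0 : μ ≠ 0 := by
    intro h
    rw [h] at hd
    simp at hd
  have hFn : ∀ n, ∀ z ∈ W, F^[n] z ∈ W := by
    intro n
    induction n with
    | zero => exact fun z hz => hz
    | succ n ih =>
      intro z hz
      rw [Function.iterate_succ_apply]
      exact ih _ (hFW z hz)
  have hFnd : ∀ n, Differentiable ℂ F^[n] := fun n => hF.iterate n
  have hFnq : ∀ n, HasDerivAt F^[n] (μ ^ n) q := fun n =>
    HasDerivAt.iterate q (hF q).hasDerivAt hFq n
  -- the averages
  set S : ℕ → ℂ → ℂ := fun n z => (n : ℂ)⁻¹ * ∑ j ∈ Finset.range n, (μ⁻¹) ^ j * (F^[j] z - q)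
    with hS
  have hSd : ∀ n, Differentiable ℂ (S n) := by
    intro n
    simp only [hS]
    refine Differentiable.const_mul ?_ _
    refine Differentiable.fun_sum fun j _ => ?_
    exact ((hFnd j).sub_const q).const_mul _
  have hμinv : ∀ j : ℕ, ‖(μ⁻¹) ^ j‖ = 1 := by
    intro j
    rw [norm_pow, norm_inv, hd, inv_one, one_pow]
  have hterm : ∀ z ∈ W, ∀ j : ℕ, ‖(μ⁻¹) ^ j * (F^[j] z - q)‖ ≤ 2 * R := by
    intro z hz j
    rw [norm_mul, hμinv, one_mul]
    have h1 := norm_sub_le (F^[j] z) q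
    have h2 := hR _ (hFn j z hz)
    have h3 := hR q hq
    linarith
  have hSR : ∀ n, ∀ z ∈ W, ‖S n z‖ ≤ 2 * R := by
    intro n z hz
    have hR0 : 0 ≤ R := (norm_nonneg _).trans (hR q hq)
    simp only [hS]
    rw [norm_mul, norm_inv, Complex.norm_natCast]
    rcases Nat.eq_zero_or_pos n with hn | hn
    · subst hn
      simpa using by positivity
    · have h1 : ‖∑ j ∈ Finset.range n, (μ⁻¹) ^ j * (F^[j] z - q)‖ ≤ n * (2 * R) := by
        refine (norm_sum_le_of_le _ (fun j _ => hterm z hz j)).trans ?_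
        simp
      have hn' : (0 : ℝ) < n := by exact_mod_cast hn
      calc (n : ℝ)⁻¹ * ‖∑ j ∈ Finset.range n, (μ⁻¹) ^ j * (F^[j] z - q)‖
          ≤ (n : ℝ)⁻¹ * (n * (2 * R)) := by gcongr
        _ = 2 * R := by field_simp
  set 𝒱 : Ultrafilter ℕ := hyperfilter ℕ with h𝒱
  have h𝒱top : (𝒱 : Filter ℕ) ≤ atTop := by
    rw [← Nat.cofinite_eq_atTop]
    exact hyperfilter_le_cofinite
  obtain ⟨Φ, hΦd, hΦlim, hΦderiv⟩ := exists_ultralimit hW (fun n => (hSd n).differentiableOn)
    hSR 𝒱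
  have hinvlim : Tendsto (fun n : ℕ => ((n : ℝ))⁻¹) 𝒱 (𝓝 0) :=
    tendsto_inv_atTop_nhds_zero_nat.mono_left h𝒱top
  -- functional equation
  have hΦF : ∀ z ∈ W, Φ (F z) = μ * Φ z := by
    intro z hz
    have h1 : Tendsto (fun n => S n (F z) - μ * S n z) 𝒱 (𝓝 (Φ (F z) - μ * Φ z)) :=
      (hΦlim _ (hFW z hz)).sub ((hΦlim z hz).const_mul μ)
    have h2 : ∀ n, S n (F z) - μ * S n z =
        (n : ℂ)⁻¹ * (μ * ((μ⁻¹) ^ n * (F^[n] z - q) - (z - q))) := by
      intro n
      simp only [hS]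
      have h3 : ∑ j ∈ Finset.range n, (μ⁻¹) ^ j * (F^[j] (F z) - q) =
          μ * ∑ j ∈ Finset.range n, (μ⁻¹) ^ (j + 1) * (F^[j + 1] z - q) := by
        rw [Finset.mul_sum]
        refine Finset.sum_congr rfl fun j _ => ?_
        rw [Function.iterate_succ_apply, pow_succ]
        field_simp
      have h4 : ∑ j ∈ Finset.range n, (μ⁻¹) ^ (j + 1) * (F^[j + 1] z - q) -
          ∑ j ∈ Finset.range n, (μ⁻¹) ^ j * (F^[j] z - q) =
          (μ⁻¹) ^ n * (F^[n] z - q) - (μ⁻¹) ^ 0 * (F^[0] z - q) := by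
        rw [← Finset.sum_sub_distrib]
        exact Finset.sum_range_sub (fun j => (μ⁻¹) ^ j * (F^[j] z - q)) n
      rw [h3]
      have h5 : (μ⁻¹) ^ 0 * (F^[0] z - q) = z - q := by simp
      rw [h5] at h4
      rw [← h4]
      ring
    have h3 : Tendsto (fun n => S n (F z) - μ * S n z) 𝒱 (𝓝 0) := by
      rw [tendsto_zero_iff_norm_tendsto_zero]
      refine squeeze_zero (g := fun n : ℕ => ((n : ℝ))⁻¹ * (4 * R)) (fun n => norm_nonneg _)
        (fun n => ?_) (by simpa using hinvlim.mul_const (4 * R))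
      rw [h2, norm_mul, norm_inv, Complex.norm_natCast, norm_mul, hd, one_mul]
      refine mul_le_mul_of_nonneg_left ?_ (by positivity)
      have h4 := norm_sub_le ((μ⁻¹) ^ n * (F^[n] z - q)) (z - q)
      have h5 := hterm z hz n
      have h6 := norm_sub_le z q
      have h7 := hR z hz
      have h8 := hR q hq
      linarith
    exact sub_eq_zero.1 (tendsto_nhds_unique h1 h3)
  have hΦFn : ∀ n, ∀ z ∈ W, Φ (F^[n] z) = μ ^ n * Φ z := by
    intro n
    induction n with
    | zero => intro z _; simp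
    | succ n ih =>
      intro z hz
      rw [Function.iterate_succ_apply', hΦF _ (hFn n z hz), ih z hz]
      ring
  -- derivative at `q`
  have hΦq : deriv Φ q = 1 := by
    have h1 := hΦderiv q hq
    have h2 : Tendsto (fun n => deriv (S n) q) 𝒱 (𝓝 1) := by
      refine tendsto_const_nhds.congr' ?_
      filter_upwards [h𝒱top (eventually_ge_atTop 1)] with n hn
      have h3 : HasDerivAt (S n) ((n : ℂ)⁻¹ * ∑ j ∈ Finset.range n, (μ⁻¹) ^ j * μ ^ j) q := by
        simp only [hS]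
        refine HasDerivAt.const_mul _ ?_
        refine HasDerivAt.fun_sum fun j _ => ?_
        exact ((hFnq j).sub_const q).const_mul _
      rw [h3.deriv]
      have h4 : ∑ j ∈ Finset.range n, (μ⁻¹) ^ j * μ ^ j = n := by
        rw [Finset.sum_congr rfl (fun j _ => by
          rw [← mul_pow, inv_mul_cancel₀ hμ0, one_pow])]
        simp
      rw [h4, inv_mul_cancel₀]
      exact_mod_cast (by omega : n ≠ 0)
    exact tendsto_nhds_unique h1 h2
  -- returning times
  obtain ⟨𝒰, h𝒰top, h𝒰⟩ : ∃ 𝒰 : Ultrafilter ℕ, (𝒰 : Filter ℕ) ≤ atTop ∧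
      Tendsto (fun n => μ ^ n) 𝒰 (𝓝 1) := by
    set ν : Circle := ⟨μ, mem_sphere_zero_iff_norm.2 hd⟩ with hν
    obtain ⟨𝒰, h1, h2⟩ := mapClusterPt_iff_ultrafilter.1 (mapClusterPt_one_atTop_pow ν)
    refine ⟨𝒰, h1, ?_⟩
    have hcc : Continuous (fun x : Circle => (x : ℂ)) := by fun_prop
    have h3 := (hcc.tendsto (1 : Circle)).comp h2
    simpa [Function.comp_def, hν] using h3
  refine ⟨𝒰, h𝒰top, ?_⟩
  obtain ⟨g, hgd, hglim, _⟩ := exists_ultralimit hW (g := fun n => F^[n])
    (fun n => (hFnd n).differentiableOn) (fun n z hz => hR _ (hFn n z hz)) 𝒰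
  have hgq : g q = q := by
    have h1 := hglim q hq
    have h2 : (fun n : ℕ => F^[n] q) = fun _ => q := by
      ext n
      exact Function.iterate_fixed hFq n
    simp only [h2] at h1
    exact tendsto_nhds_unique h1 tendsto_const_nhds
  have hgcont : ContinuousAt g q := (hgd.differentiableAt (hW.mem_nhds hq)).continuousAt
  have hΦstrict : HasStrictDerivAt Φ 1 q := by
    have h1 : AnalyticAt ℂ Φ q := (hΦd.analyticOnNhd hW) q hq
    have h2 := h1.hasStrictDerivAt
    rwa [hΦq] at h2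
  have hleft := HasStrictDerivAt.eventually_left_inverse hΦstrict one_ne_zero
  have hgid : g =ᶠ[𝓝 q] id := by
    have hleft2 : ∀ᶠ z in 𝓝 q, HasStrictDerivAt.localInverse Φ 1 q hΦstrict one_ne_zero
        (Φ (g z)) = g z := by
      have : Tendsto g (𝓝 q) (𝓝 q) := by
        have := hgcont.tendsto
        rwa [hgq] at this
      exact this.eventually hleft
    have hgW : ∀ᶠ z in 𝓝 q, g z ∈ W := by
      have : Tendsto g (𝓝 q) (𝓝 q) := by
        have := hgcont.tendsto
        rwa [hgq] at this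
      exact this.eventually (hW.mem_nhds hq)
    filter_upwards [hleft, hleft2, hgW, hW.mem_nhds hq] with z h1 h2 h3 h4
    have h5 : Φ (g z) = Φ z := by
      have h6 : Tendsto (fun n => Φ (F^[n] z)) 𝒰 (𝓝 (Φ (g z))) :=
        ((hΦd.differentiableAt (hW.mem_nhds h3)).continuousAt.tendsto).comp (hglim z h4)
      have h7 : Tendsto (fun n => Φ (F^[n] z)) 𝒰 (𝓝 (1 * Φ z)) := by
        simp only [hΦFn _ z h4]
        exact h𝒰.mul_const _
      rw [one_mul] at h7
      exact tendsto_nhds_unique h6 h7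
    rw [h5, h1] at h2
    exact h2.symm
  have hgid2 : EqOn g id W := (hgd.analyticOnNhd hW).eqOn_of_preconnected_of_eventuallyEq
    (differentiable_id.differentiableOn.analyticOnNhd hW) hc hq hgid
  intro z hz
  have := hglim z hz
  rwa [hgid2 hz] at this

end Pool.Agent.Lib.MP_77ccbb_an
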