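import Pool.Agent.Lib.MP_77ccbb_an.Upper
import Pool.Agent.Lib.MP_77ccbb_an.Limit

/-!
Analysis of the extremal case: if `rbif c` reaches the distance to the boundary of the
Mandelbrot set, then the nearest boundary point is `1/4` and `c` is in the main cardioid.
-/

open Set Filter Topology Metric

namespace Pool.Agent.Lib.MP_77ccbb_an

theorem hasDerivAt_iter (c z : ℂ) (n : ℕ) :
    HasDerivAt (f c)^[n] (∏ i ∈ Finset.range n, (2 * (f c)^[i] z)) z := by
  induction n with
  | zero => simpa using hasDerivAt_id z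
  | succ n ih =>
    rw [Function.iterate_succ', Finset.prod_range_succ, mul_comm]
    exact (hasDerivAt_f c _).comp z ih

theorem continuous_deriv_iter (n : ℕ) : Continuous fun p : ℂ × ℂ => deriv (f p.1)^[n] p.2 := by
  have : (fun p : ℂ × ℂ => deriv (f p.1)^[n] p.2) =
      fun p : ℂ × ℂ => ∏ i ∈ Finset.range n, (2 * (f p.1)^[i] p.2) := by
    ext p
    exact (hasDerivAt_iter p.1 p.2 n).deriv
  rw [this]
  exact continuous_finsetProd _ fun i _ => continuous_const.mul (continuous_iter i)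

namespace Cyc

variable {c c₀ : ℂ} {d : ℝ} {k : ℕ} {W : ℕ → Set ℂ}

theorem exists_neutral (h : Cyc c d k W) (hd : 0 < d) (hc₀ : c₀ ∈ frontier mandelbrot)
    (hdist : ‖c₀ - c‖ = d) :
    ∃ q ∈ closure (W 0), (f c₀)^[k] q = q ∧ ‖deriv (f c₀)^[k] q‖ = 1 := by
  set cs : ℕ → ℂ := fun n => c + (((1 : ℝ) - 1 / ((n : ℝ) + 1) : ℝ) : ℂ) * (c₀ - c) with hcs
  have hcslt : ∀ n, ‖cs n - c‖ < d := by
    intro n
    have h5 : cs n - c = (((1 : ℝ) - 1 / ((n : ℝ) + 1) : ℝ) : ℂ) * (c₀ - c) := by
      simp only [hcs]; ring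
    rw [h5, norm_mul, Complex.norm_real, hdist]
    have h6 : (0 : ℝ) < 1 / ((n : ℝ) + 1) := by positivity
    have h7 : (1 : ℝ) / ((n : ℝ) + 1) ≤ 1 := by
      rw [div_le_one (by positivity)]
      have : (0 : ℝ) ≤ n := n.cast_nonneg
      linarith
    rw [Real.norm_of_nonneg (by linarith)]
    nlinarith
  have hcslim : Tendsto cs atTop (𝓝 c₀) := by
    have h1 : Tendsto (fun n : ℕ => (1 : ℝ) - 1 / ((n : ℝ) + 1)) atTop (𝓝 (1 - 0)) :=
      tendsto_one_div_add_atTop_nhds_zero_nat.const_sub 1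
    have h2 : Tendsto (fun n : ℕ => (((1 : ℝ) - 1 / ((n : ℝ) + 1) : ℝ) : ℂ)) atTop
        (𝓝 ((1 - 0 : ℝ) : ℂ)) := (Complex.continuous_ofReal.tendsto _).comp h1
    have h3 := (h2.mul_const (c₀ - c)).const_add c
    have h4 : c + ((1 - 0 : ℝ) : ℂ) * (c₀ - c) = c₀ := by simp
    rwa [h4] at h3
  choose qs hqs1 hqs2 hqs3 using fun n => h.exists_attracting hd (hcslt n)
  obtain ⟨q, _, φ, hφ, hlim⟩ := (isCompact_closedBall (0 : ℂ) (1 + ‖c‖)).tendsto_subseq
    (fun n => h.bdd 0 (hqs1 n))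
  have hpair : Tendsto (fun n => (cs (φ n), qs (φ n))) atTop (𝓝 (c₀, q)) :=
    (hcslim.comp hφ.tendsto_atTop).prodMk_nhds hlim
  have hq1 : (f c₀)^[k] q = q := by
    have h1 := ((continuous_iter k).tendsto (c₀, q)).comp hpair
    have h2 : Tendsto (fun n => (f (cs (φ n)))^[k] (qs (φ n))) atTop (𝓝 q) := by
      simp only [hqs2]
      exact hlim
    exact tendsto_nhds_unique h1 h2
  have hq2 : ‖deriv (f c₀)^[k] q‖ ≤ 1 := by
    have h1 := (((continuous_deriv_iter k).tendsto (c₀, q)).comp hpair).norm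
    exact le_of_tendsto h1 (Eventually.of_forall fun n => (hqs3 (φ n)).le)
  refine ⟨q, mem_closure_of_tendsto hlim (Eventually.of_forall fun n => hqs1 (φ n)), hq1, ?_⟩
  by_contra hcon
  exact hc₀.2 (fatou h.hk hq1 (lt_of_le_of_ne hq2 hcon))

theorem per_mul' (h : Cyc c d k W) (n : ℕ) : W (k * n) = W 0 := by
  have := h.per_mul 0 n
  rwa [zero_add, mul_comm] at this

theorem neutral_not_mem (h : Cyc c d k W) (hd : 0 < d) (hdist : ‖c₀ - c‖ = d)
    {q : ℂ} (hq : (f c₀)^[k] q = q) (hq1 : ‖deriv (f c₀)^[k] q‖ = 1) : q ∉ W 0 := by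
  intro hqW
  set v : ℂ := c - c₀ with hv
  have hvd : ‖v‖ = d := by rw [hv, norm_sub_rev, hdist]
  have hFW : ∀ z ∈ W 0, (f c₀)^[k] z ∈ W 0 := by
    intro z hz
    have h1 := h.map_iter hd hdist.le 0 k hz
    rwa [h.per] at h1
  have hR : ∀ z ∈ W 0, ‖z‖ ≤ 1 + ‖c‖ := by
    intro z hz
    have := h.bdd 0 hz
    rwa [mem_closedBall, dist_zero_right] at this
  obtain ⟨𝒰, h𝒰top, h𝒰⟩ := exists_ultrafilter_iterate_tendsto (h.isOpen 0) (h.preconn 0) hR
    (differentiable_iter c₀ k) hFW hqW hq hq1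
  -- translation by `v`
  have h1 : ∀ z ∈ W 0, z + v ∈ closure (W 0) := by
    intro z hz
    refine mem_closure_of_tendsto ((h𝒰 z hz).add_const v) ?_
    filter_upwards [h𝒰top (eventually_ge_atTop 1)] with n hn
    have hn : 1 ≤ n := hn
    obtain ⟨m, hm⟩ : ∃ m, k * n = m + 1 := by
      refine ⟨k * n - 1, ?_⟩
      have := Nat.mul_pos (by have := h.hk; omega : 0 < k) (by omega : 0 < n)
      omega
    have h2 : (f c₀)^[m] z ∈ W m := by simpa using h.map_iter hd hdist.le 0 m hz
    have h3 : f c ((f c₀)^[m] z) ∈ W (m + 1) :=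
      h.ball_sub m _ (subset_closure h2) (mem_ball_self hd)
    rw [← hm, h.per_mul'] at h3
    have h4 : ((f c₀)^[k])^[n] z + v = f c ((f c₀)^[m] z) := by
      rw [← Function.iterate_mul, hm, Function.iterate_succ_apply']
      simp only [f, hv]
      ring
    rw [h4]
    exact h3
  have h2 : ∀ z ∈ closure (W 0), z + v ∈ closure (W 0) := by
    intro z hz
    have h3 := map_mem_closure (f := fun z => z + v) (by fun_prop) hz h1
    rwa [closure_closure] at h3
  obtain ⟨z, hz⟩ := h.nonempty 0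
  have h3 : ∀ n : ℕ, z + n * v ∈ closure (W 0) := by
    intro n
    induction n with
    | zero => simpa using subset_closure hz
    | succ n ih =>
      have := h2 _ ih
      push_cast
      convert this using 1
      ring
  have h4 : ∀ n : ℕ, (n : ℝ) * d ≤ 2 * (1 + ‖c‖) := by
    intro n
    have h5 := closure_minimal (h.bdd 0) isClosed_closedBall (h3 n)
    have h6 := h.bdd 0 hz
    rw [mem_closedBall, dist_zero_right] at h5 h6
    calc (n : ℝ) * d = ‖(z + n * v) - z‖ := by
          rw [add_sub_cancel_left, norm_mul, hvd, Complex.norm_natCast]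
      _ ≤ ‖z + n * v‖ + ‖z‖ := norm_sub_le _ _
      _ ≤ 2 * (1 + ‖c‖) := by linarith
  obtain ⟨n, hn⟩ := exists_nat_gt (2 * (1 + ‖c‖) / d)
  rw [div_lt_iff₀ hd] at hn
  linarith [h4 n]

/-- If `‖v + 2 p ζ + ζ²‖ > ‖v‖` for all `ζ` in the ball `ball v ‖v‖`, then `p ≥ 0`. -/
theorem nonneg_of_forall {p v : ℂ} (hv : v ≠ 0)
    (h : ∀ ζ : ℂ, ‖ζ - v‖ < ‖v‖ → ‖v‖ < ‖v + 2 * p * ζ + ζ ^ 2‖) : p.im = 0 ∧ 0 ≤ p.re := by
  have hv0 : 0 < ‖v‖ := norm_pos_iff.2 hv
  have key : ∀ w : ℂ, 0 < w.re → 0 ≤ (2 * p * w).re := by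
    intro w hw
    have hw0 : w ≠ 0 := by
      rintro rfl
      simp at hw
    have hwn : 0 < ‖w‖ := norm_pos_iff.2 hw0
    set a : ℂ := 2 * p * w with ha
    set b : ℂ := v * w ^ 2 with hb
    set C : ℝ := ‖a‖ ^ 2 / 2 + ‖b‖ with hC
    have hC0 : 0 ≤ C := by positivity
    have h1 : ∀ ε : ℝ, 0 < ε → ε * ‖w‖ ^ 2 < 2 * w.re → 0 < a.re + ε * C := by
      intro ε hε0 hε1
      have h2 : ‖(ε : ℂ) * v * w - v‖ < ‖v‖ := by
        have e1 : (ε : ℂ) * v * w - v = v * (ε * w - 1) := by ring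
        rw [e1, norm_mul]
        have e2 : ‖(ε : ℂ) * w - 1‖ < 1 := by
          have e3 : ‖(ε : ℂ) * w - 1‖ ^ 2 = 1 - ε * (2 * w.re - ε * ‖w‖ ^ 2) := by
            rw [Complex.sq_norm, Complex.sq_norm, Complex.normSq_apply, Complex.normSq_apply]
            simp
            ring
          have e4 : ‖(ε : ℂ) * w - 1‖ ^ 2 < 1 ^ 2 := by
            rw [e3]
            nlinarith
          exact lt_of_pow_lt_pow_left₀ 2 zero_le_one e4
        nlinarith
      have h3 := h _ h2
      have h4 : v + 2 * p * (ε * v * w) + (ε * v * w) ^ 2 = v * ((1 + ε * a) + ε ^ 2 * b) := by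
        rw [ha, hb]; ring
      rw [h4, norm_mul] at h3
      have h5 : 1 < ‖(1 + (ε : ℂ) * a) + (ε : ℂ) ^ 2 * b‖ := by
        by_contra hcon
        push Not at hcon
        nlinarith
      have h6 : ‖(1 + (ε : ℂ) * a) + (ε : ℂ) ^ 2 * b‖ ≤ ‖1 + (ε : ℂ) * a‖ + ε ^ 2 * ‖b‖ := by
        refine (norm_add_le _ _).trans ?_
        rw [norm_mul, norm_pow, Complex.norm_real, Real.norm_of_nonneg hε0.le]
      have h7 : ‖1 + (ε : ℂ) * a‖ ^ 2 = 1 + 2 * ε * a.re + ε ^ 2 * ‖a‖ ^ 2 := by
        rw [Complex.sq_norm, Complex.sq_norm, Complex.normSq_apply, Complex.normSq_apply]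
        simp
        ring
      have h8 : ‖1 + (ε : ℂ) * a‖ ≤ (‖1 + (ε : ℂ) * a‖ ^ 2 + 1) / 2 := by
        nlinarith [sq_nonneg (‖1 + (ε : ℂ) * a‖ - 1)]
      have h9 : 0 < ε * (a.re + ε * C) := by
        rw [hC]
        nlinarith
      exact (mul_pos_iff_of_pos_left hε0).1 h9
    by_contra hcon
    push Not at hcon
    -- choose ε small
    set ε : ℝ := min (w.re / ‖w‖ ^ 2) (-a.re / (C + 1)) with hε
    have hε0 : 0 < ε := by
      refine lt_min (by positivity) ?_
      exact div_pos (by linarith) (by linarith)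
    have h2 : ε * ‖w‖ ^ 2 < 2 * w.re := by
      calc ε * ‖w‖ ^ 2 ≤ w.re / ‖w‖ ^ 2 * ‖w‖ ^ 2 := by gcongr; exact min_le_left _ _
        _ = w.re := by field_simp
        _ < 2 * w.re := by linarith
    have h3 := h1 ε hε0 h2
    have h4 : ε * C ≤ -a.re := by
      calc ε * C ≤ ε * (C + 1) := by gcongr; linarith
        _ ≤ -a.re / (C + 1) * (C + 1) := by gcongr; exact min_le_right _ _
        _ = -a.re := by field_simp
    linarith
  have h1 : ∀ s : ℝ, 0 ≤ p.re - s * p.im := by
    intro s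
    have := key ⟨1, s⟩ (by norm_num)
    simp at this
    linarith
  have him : p.im = 0 := by
    by_contra hne
    have := h1 ((p.re + 1) / p.im)
    rw [div_mul_cancel₀ _ hne] at this
    linarith
  refine ⟨him, ?_⟩
  have := h1 0
  simpa using this

theorem extremal (h : Cyc c d k W) (hd : 0 < d) (hc₀ : c₀ ∈ frontier mandelbrot)
    (hdist : ‖c₀ - c‖ = d) : c₀ = 1 / 4 ∧ c ∈ mainCardioid := by
  obtain ⟨q, hqcl, hq, hq1⟩ := h.exists_neutral hd hc₀ hdist
  have hqW := h.neutral_not_mem hd hdist hq hq1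
  set v : ℂ := c - c₀ with hv
  have hvd : ‖v‖ = d := by rw [hv, norm_sub_rev, hdist]
  have hv0 : v ≠ 0 := by
    rw [← norm_pos_iff, hvd]; exact hd
  set p : ℕ → ℂ := fun i => (f c₀)^[i] q with hp
  have hps : ∀ i, p (i + 1) = f c₀ (p i) := by
    intro i
    simp only [hp]
    rw [Function.iterate_succ_apply']
  have hpper : ∀ i, p (i + k) = p i := by
    intro i
    simp only [hp]
    rw [Function.iterate_add_apply, hq]
  have hpmul : ∀ n, p (k * n) = q := by
    intro n
    simp only [hp]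
    rw [Function.iterate_mul]
    exact Function.iterate_fixed hq n
  have hpcl : ∀ i, p i ∈ closure (W i) := by
    intro i
    induction i with
    | zero => exact hqcl
    | succ i ih =>
      rw [hps]
      exact map_mem_closure (continuous_f c₀) ih (fun z hz => h.map_closedBall hd hdist.le i hz)
  have hpnot : ∀ i, p i ∉ W i := by
    intro i hi
    -- choose `m` with `i + m = k * i`
    obtain ⟨m, hm⟩ : ∃ m, i + m = k * i := by
      refine ⟨k * i - i, ?_⟩
      have := Nat.mul_le_mul_right i h.hk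
      omega
    have h1 := h.map_iter hd hdist.le i m hi
    have h2 : (f c₀)^[m] (p i) = q := by
      have h3 : (f c₀)^[m] (p i) = p (i + m) := by
        simp only [hp]
        rw [← Function.iterate_add_apply, add_comm]
      rw [h3, hm, hpmul]
    rw [h2, hm, h.per_mul'] at h1
    exact hqW h1
  have hballs' : ∀ i, ball (p (i + 1) + v) d ⊆ W (i + 1) := by
    intro i
    have h1 := h.ball_sub i _ (hpcl i)
    have h2 : f c (p i) = p (i + 1) + v := by
      rw [hps]; simp only [f, hv]; ring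
    rwa [h2] at h1
  have hballs : ∀ i, ball (p i + v) d ⊆ W i := by
    intro i
    obtain ⟨j, hj⟩ : ∃ j, i + k = j + 1 := ⟨i + k - 1, by have := h.hk; omega⟩
    have h1 := hballs' j
    rwa [← hj, hpper, h.per] at h1
  have hreal : ∀ i, (p i).im = 0 ∧ 0 ≤ (p i).re := by
    intro i
    refine nonneg_of_forall hv0 fun ζ hζ => ?_
    by_contra hcon
    push Not at hcon
    have h1 : p i + ζ ∈ W i := by
      apply hballs
      rw [mem_ball, dist_eq_norm]
      have : p i + ζ - (p i + v) = ζ - v := by ring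
      rw [this, ← hvd]
      exact hζ
    have h2 := h.closedBall_sub hd i h1
    apply hpnot (i + 1)
    apply h2
    rw [mem_closedBall, dist_eq_norm, norm_sub_rev]
    have h3 : f c (p i + ζ) - p (i + 1) = v + 2 * p i * ζ + ζ ^ 2 := by
      rw [hps]; simp only [f, hv]; ring
    rw [h3, ← hvd]
    exact hcon
  set x : ℕ → ℝ := fun i => (p i).re with hx
  have hpx : ∀ i, p i = (x i : ℂ) := by
    intro i
    apply Complex.ext
    · simp [hx]
    · simp [(hreal i).1]
  have hc₀re : c₀ = (c₀.re : ℂ) := by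
    have h1 := hps 0
    rw [hpx 1, hpx 0] at h1
    have h2 := congrArg Complex.im h1
    simp [f, sq] at h2
    apply Complex.ext
    · simp
    · simp [← h2]
  have hxs : ∀ i, x (i + 1) = x i ^ 2 + c₀.re := by
    intro i
    have h1 := hps i
    rw [hpx (i + 1), hpx i, f, hc₀re] at h1
    exact_mod_cast h1
  have hx0 : ∀ i, 0 ≤ x i := fun i => (hreal i).2
  have hxper : x k = x 0 := by
    have := hpper 0
    rw [zero_add] at this
    simp only [hx, this]
  -- monotonicity
  have hx10 : x 1 = x 0 := by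
    rcases le_total (x 0) (x 1) with hle | hle
    · have hmono : ∀ i, x i ≤ x (i + 1) := by
        intro i
        induction i with
        | zero => exact hle
        | succ i ih =>
          rw [hxs (i + 1), hxs i]
          have := hx0 i
          have : x i ^ 2 ≤ x (i + 1) ^ 2 := by gcongr
          rw [hxs i] at this
          linarith
      have hmono' : Monotone x := monotone_nat_of_le_succ hmono
      have := hmono' h.hk
      linarith
    · have hanti : ∀ i, x (i + 1) ≤ x i := by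
        intro i
        induction i with
        | zero => exact hle
        | succ i ih =>
          rw [hxs (i + 1), hxs i]
          have := hx0 (i + 1)
          have : x (i + 1) ^ 2 ≤ x i ^ 2 := by gcongr
          rw [hxs i] at this
          linarith
      have hanti' : Antitone x := antitone_nat_of_succ_le hanti
      have := hanti' h.hk
      linarith
  have hxconst : ∀ i, x i = x 0 := by
    intro i
    induction i with
    | zero => rfl
    | succ i ih => rw [hxs, ih, ← hxs, hx10]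
  have hxhalf : x 0 = 1 / 2 := by
    have h1 : deriv (f c₀)^[k] q = ((2 * x 0 : ℝ) : ℂ) ^ k := by
      rw [(hasDerivAt_iter c₀ q k).deriv]
      have h2 : ∀ i ∈ Finset.range k, 2 * (f c₀)^[i] q = ((2 * x 0 : ℝ) : ℂ) := by
        intro i _
        have h3 : (f c₀)^[i] q = p i := rfl
        rw [h3, hpx i, hxconst i]
        push_cast
        ring
      rw [Finset.prod_congr rfl h2]
      simp
    rw [h1, norm_pow, Complex.norm_real, Real.norm_of_nonneg (by linarith [hx0 0])] at hq1
    have h2 : 2 * x 0 = 1 := by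
      have hk0 : k ≠ 0 := by have := h.hk; omega
      exact (pow_eq_one_iff_of_nonneg (by linarith [hx0 0]) hk0).1 hq1
    linarith
  have hc₀val : c₀ = 1 / 4 := by
    have h1 := hxs 0
    rw [hx10, hxhalf] at h1
    have h2 : c₀.re = 1 / 4 := by linarith
    rw [hc₀re, h2]
    norm_num
  refine ⟨hc₀val, ?_⟩
  -- the union of the `W i`
  have hcommon : (⋂ i, W i).Nonempty := by
    refine ⟨p 0 + v, mem_iInter.2 fun i => hballs i ?_⟩
    rw [hpx i, hxconst i, ← hpx 0]
    exact mem_ball_self hd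
  obtain ⟨z, hz, hz1, hz2⟩ := earle_hamilton (W := ⋃ i, W i) (F := f c) (ε := d)
    (R := 1 + ‖c‖) (isOpen_iUnion h.isOpen)
    (isPreconnected_iUnion hcommon h.preconn)
    (by obtain ⟨y, hy⟩ := h.nonempty 0; exact ⟨y, mem_iUnion.2 ⟨0, hy⟩⟩)
    (iUnion_subset h.bdd) (differentiable_f c) hd
    (fun z hz => by
      obtain ⟨i, hi⟩ := mem_iUnion.1 hz
      exact (h.ball_sub i z (subset_closure hi)).trans (subset_iUnion W (i + 1)))
  refine ⟨2 * z, ?_, ?_⟩
  · rwa [(hasDerivAt_f c z).deriv] at hz2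
  · have : z ^ 2 + c = z := hz1
    linear_combination this

end Cyc

theorem lt_infDist_or (c : ℂ) (hc : c ∉ frontier mandelbrot) :
    rbif c < infDist c (frontier mandelbrot) ∨ (c ∈ mainCardioid ∧
      ∀ c₀ ∈ frontier mandelbrot, dist c c₀ = infDist c (frontier mandelbrot) → c₀ = 1 / 4) := by
  rcases lt_or_ge (rbif c) (infDist c (frontier mandelbrot)) with h1 | h1
  · exact Or.inl h1
  · right
    have hd : 0 < infDist c (frontier mandelbrot) :=
      (isClosed_frontier.notMem_iff_infDist_pos frontier_nonempty).1 hc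
    obtain ⟨K, hK⟩ := exists_planarInv hd h1
    obtain ⟨k, W, hW⟩ := exists_cyc hd hK
    have key : ∀ c₀ ∈ frontier mandelbrot, dist c c₀ = infDist c (frontier mandelbrot) →
        c₀ = 1 / 4 ∧ c ∈ mainCardioid := by
      intro c₀ hc₀ hdist
      exact hW.extremal hd hc₀ (by rw [← dist_eq_norm, dist_comm, hdist])
    obtain ⟨c₁, hc₁, hc₁d⟩ := isClosed_frontier.exists_infDist_eq_dist frontier_nonempty c
    exact ⟨(key c₁ hc₁ hc₁d.symm).2, fun c₀ hc₀ hdist => (key c₀ hc₀ hdist).1⟩

end Pool.Agent.Lib.MP_77ccbb_an
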