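import Pool.Agent.Lib.MP_77ccbb_an.Fatou

/-!
If `d ≤ rbif c` with `d > 0` then there is a cycle of bounded connected open sets `W i` with
`ball (z ^ 2 + c) d ⊆ W (i + 1)` for all `z ∈ closure (W i)`.
-/

open Set Filter Topology Metric

namespace Pool.Agent.Lib.MP_77ccbb_an

theorem PlanarInv.subset_closedBall {c : ℂ} {r : ℝ} {K : Set ℂ} (h : PlanarInv c r K)
    (hr : 0 ≤ r) : K ⊆ closedBall 0 (1 + ‖c‖) := by
  intro z hz
  rw [mem_closedBall, dist_zero_right]
  by_contra hcon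
  push Not at hcon
  obtain ⟨C, hC⟩ := h.2.1.isBounded.exists_norm_le
  obtain ⟨n, hn⟩ := ((escape c z hcon).eventually_gt_atTop C).exists
  exact absurd (hC _ (h.iterate (by simpa using hr) n hz)) (not_le.2 hn)

/-- The closure of the union of all planar invariant sets. -/
def maxInv (c : ℂ) (r : ℝ) : Set ℂ := closure (⋃₀ {K | PlanarInv c r K})

theorem maxInv_subset {c : ℂ} {r : ℝ} (hr : 0 ≤ r) : maxInv c r ⊆ closedBall 0 (1 + ‖c‖) :=
  closure_minimal (sUnion_subset fun _ hK => PlanarInv.subset_closedBall hK hr) isClosed_closedBall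

theorem continuous_f (c : ℂ) : Continuous (f c) := (differentiable_f c).continuous

theorem maxInv_planarInv {c : ℂ} {r : ℝ} (hr : 0 ≤ r) (h : ∃ K, PlanarInv c r K) :
    PlanarInv c r (maxInv c r) := by
  obtain ⟨K, hK⟩ := h
  refine ⟨?_, ?_, fun c' hc' z hz => ?_⟩
  · obtain ⟨x, hx⟩ := hK.1
    exact ⟨x, subset_closure ⟨K, hK, hx⟩⟩
  · exact (isCompact_closedBall 0 (1 + ‖c‖)).of_isClosed_subset isClosed_closure (maxInv_subset hr)
  · refine map_mem_closure (continuous_f c') hz ?_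
    rintro x ⟨K', hK', hx⟩
    exact ⟨K', hK', hK'.2.2 c' hc' x hx⟩

theorem maxInv_anti {c : ℂ} {r r' : ℝ} (h : r ≤ r') : maxInv c r' ⊆ maxInv c r :=
  closure_mono (sUnion_subset_sUnion fun _ hK => PlanarInv.mono hK h)

theorem exists_planarInv_of_lt {c : ℂ} {r : ℝ} (hr : 0 ≤ r) (h : r < rbif c) :
    ∃ K, PlanarInv c r K := by
  rw [← hasPlanarMinimal_iff]
  by_contra hcon
  have : rbif c ≤ r := csInf_le ⟨0, fun x hx => hx.1⟩ ⟨hr, hcon⟩
  linarith

theorem exists_planarInv {c : ℂ} {d : ℝ} (hd : 0 < d) (h : d ≤ rbif c) :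
    ∃ K, PlanarInv c d K := by
  set r : ℕ → ℝ := fun n => d * (1 - 1 / ((n : ℝ) + 1)) with hrdef
  have hr0 : ∀ n, 0 ≤ r n := by
    intro n
    have : (1 : ℝ) / ((n : ℝ) + 1) ≤ 1 := by
      rw [div_le_one (by positivity)]
      have : (0 : ℝ) ≤ n := n.cast_nonneg
      linarith
    have h2 : 0 ≤ 1 - 1 / ((n : ℝ) + 1) := by linarith
    exact mul_nonneg hd.le h2
  have hrd : ∀ n, r n < d := by
    intro n
    have : (0 : ℝ) < 1 / ((n : ℝ) + 1) := by positivity
    have h2 : 1 - 1 / ((n : ℝ) + 1) < 1 := by linarith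
    calc r n = d * (1 - 1 / ((n : ℝ) + 1)) := rfl
      _ < d * 1 := by gcongr
      _ = d := mul_one d
  have hmono : Monotone r := by
    intro m n hmn
    have : (1 : ℝ) / ((n : ℝ) + 1) ≤ 1 / ((m : ℝ) + 1) := by gcongr
    have h2 : 1 - 1 / ((m : ℝ) + 1) ≤ 1 - 1 / ((n : ℝ) + 1) := by linarith
    exact mul_le_mul_of_nonneg_left h2 hd.le
  have hlim : Tendsto r atTop (𝓝 d) := by
    have h1 : Tendsto (fun n : ℕ => (1 : ℝ) - 1 / ((n : ℝ) + 1)) atTop (𝓝 (1 - 0)) :=
      tendsto_one_div_add_atTop_nhds_zero_nat.const_sub 1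
    have h2 := h1.const_mul d
    rwa [sub_zero, mul_one] at h2
  have hM : ∀ n, PlanarInv c (r n) (maxInv c (r n)) := fun n =>
    maxInv_planarInv (hr0 n) (exists_planarInv_of_lt (hr0 n) ((hrd n).trans_le h))
  have hsub : ∀ n, maxInv c (r (n + 1)) ⊆ maxInv c (r n) := fun n =>
    maxInv_anti (hmono (Nat.le_succ n))
  have hne : (⋂ n, maxInv c (r n)).Nonempty :=
    IsCompact.nonempty_iInter_of_sequence_nonempty_isCompact_isClosed _ hsub
      (fun n => (hM n).1) (hM 0).2.1 (fun n => (hM n).2.1.isClosed)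
  have hcl : IsClosed (⋂ n, maxInv c (r n)) := isClosed_iInter fun n => (hM n).2.1.isClosed
  refine ⟨⋂ n, maxInv c (r n), hne, ?_, ?_⟩
  · exact (hM 0).2.1.of_isClosed_subset hcl (iInter_subset _ 0)
  · -- strictly inside
    have hlt : ∀ c' : ℂ, ‖c' - c‖ < d → ∀ z ∈ ⋂ n, maxInv c (r n),
        f c' z ∈ ⋂ n, maxInv c (r n) := by
      intro c' hc' z hz
      rw [mem_iInter] at hz ⊢
      obtain ⟨N, hN⟩ := (hlim.eventually_const_lt hc').exists_forall_of_atTop
      intro n
      have h1 := (hM (max n N)).2.2 c' (hN _ (le_max_right _ _)).le z (hz _)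
      exact maxInv_anti (hmono (le_max_left n N)) h1
    intro c' hc' z hz
    have ht : Tendsto (fun n : ℕ => f (c + (1 - 1 / ((n : ℝ) + 1) : ℝ) * (c' - c)) z) atTop
        (𝓝 (f c' z)) := by
      have h1 : Tendsto (fun n : ℕ => (1 : ℝ) - 1 / ((n : ℝ) + 1)) atTop (𝓝 (1 - 0)) :=
        tendsto_one_div_add_atTop_nhds_zero_nat.const_sub 1
      have h2 : Tendsto (fun n : ℕ => (((1 : ℝ) - 1 / ((n : ℝ) + 1) : ℝ) : ℂ)) atTop
          (𝓝 ((1 - 0 : ℝ) : ℂ)) := (Complex.continuous_ofReal.tendsto _).comp h1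
      have h3 := ((h2.mul_const (c' - c)).const_add c).const_add (z ^ 2)
      have h4 : z ^ 2 + (c + ((1 - 0 : ℝ) : ℂ) * (c' - c)) = f c' z := by
        simp [f]
      rw [h4] at h3
      exact h3
    refine hcl.mem_of_tendsto ht (Eventually.of_forall fun n => hlt _ ?_ z hz)
    have h5 : c + (((1 : ℝ) - 1 / ((n : ℝ) + 1) : ℝ) : ℂ) * (c' - c) - c =
        (((1 : ℝ) - 1 / ((n : ℝ) + 1) : ℝ) : ℂ) * (c' - c) := by ring
    rw [h5, norm_mul, Complex.norm_real]
    have h6 : (0 : ℝ) < 1 / ((n : ℝ) + 1) := by positivity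
    have h7 : (1 : ℝ) / ((n : ℝ) + 1) ≤ 1 := by
      rw [div_le_one (by positivity)]
      have : (0 : ℝ) ≤ n := n.cast_nonneg
      linarith
    rw [Real.norm_of_nonneg (by linarith)]
    have h8 := norm_nonneg (c' - c)
    nlinarith

/-- A cycle of open sets. -/
structure Cyc (c : ℂ) (d : ℝ) (k : ℕ) (W : ℕ → Set ℂ) : Prop where
  hk : 1 ≤ k
  isOpen : ∀ i, IsOpen (W i)
  preconn : ∀ i, IsPreconnected (W i)
  nonempty : ∀ i, (W i).Nonempty
  bdd : ∀ i, W i ⊆ closedBall 0 (1 + ‖c‖)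
  per : ∀ i, W (i + k) = W i
  ball_sub : ∀ i, ∀ z ∈ closure (W i), ball (f c z) d ⊆ W (i + 1)

theorem exists_cyc {c : ℂ} {d : ℝ} {K : Set ℂ} (hd : 0 < d) (hK : PlanarInv c d K) :
    ∃ (k : ℕ) (W : ℕ → Set ℂ), Cyc c d k W := by
  have hball : ∀ z ∈ K, ball (f c z) d ⊆ interior K := by
    intro z hz
    refine interior_maximal ?_ isOpen_ball
    intro w hw
    rw [mem_ball, dist_eq_norm] at hw
    have h1 := hK.2.2 (w - z ^ 2) (by
      have : w - z ^ 2 - c = w - f c z := by simp only [f]; ring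
      rw [this]; exact hw.le) z hz
    have h2 : f (w - z ^ 2) z = w := by simp only [f]; ring
    rwa [h2] at h1
  obtain ⟨z₀, hz₀⟩ := hK.1
  have hcc : ‖c - c‖ ≤ d := by simpa using hd.le
  set x : ℕ → ℂ := fun i => (f c)^[i + 1] z₀ with hx
  have hxK : ∀ i, x i ∈ K := fun i => hK.iterate hcc (i + 1) hz₀
  have hxs : ∀ i, x (i + 1) = f c (x i) := by
    intro i
    simp only [hx]
    rw [Function.iterate_succ_apply']
  have hxU : ∀ i, ball (x i) d ⊆ interior K := by
    intro i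
    have h1 : x i = f c ((f c)^[i] z₀) := by
      simp only [hx]
      rw [Function.iterate_succ_apply']
    rw [h1]
    exact hball _ (hK.iterate hcc i hz₀)
  set Y : ℕ → Set ℂ := fun i => connectedComponentIn (interior K) (x i) with hY
  have hballY : ∀ i, ball (x i) d ⊆ Y i := fun i =>
    (convex_ball (x i) d).isPreconnected.subset_connectedComponentIn (mem_ball_self hd) (hxU i)
  have hYK : ∀ i, Y i ⊆ interior K := fun i => connectedComponentIn_subset _ _
  have hYclK : ∀ i, closure (Y i) ⊆ K := fun i =>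
    closure_minimal ((hYK i).trans interior_subset) hK.2.1.isClosed
  have hYsub : ∀ i, ∀ z ∈ closure (Y i), ball (f c z) d ⊆ Y (i + 1) := by
    intro i z hz
    have h1 : IsPreconnected (f c '' closure (Y i)) :=
      isPreconnected_connectedComponentIn.closure.image _ (continuous_f c).continuousOn
    have h2 : f c '' closure (Y i) ⊆ interior K := by
      rintro _ ⟨w, hw, rfl⟩
      exact hball w (hYclK i hw) (mem_ball_self hd)
    have h3 : x (i + 1) ∈ f c '' closure (Y i) :=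
      ⟨x i, subset_closure (hballY i (mem_ball_self hd)), (hxs i).symm⟩
    have h4 : f c '' closure (Y i) ⊆ Y (i + 1) := h1.subset_connectedComponentIn h3 h2
    have h5 : f c z ∈ Y (i + 1) := h4 ⟨z, hz, rfl⟩
    have h6 : Y (i + 1) = connectedComponentIn (interior K) (f c z) := connectedComponentIn_eq h5
    rw [h6]
    exact (convex_ball _ d).isPreconnected.subset_connectedComponentIn (mem_ball_self hd)
      (hball z (hYclK i hz))
  -- pigeonhole
  obtain ⟨i, j, hij, hdist⟩ : ∃ i j, i < j ∧ dist (x i) (x j) < d := by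
    obtain ⟨a, _, φ, hφ, hlim⟩ := hK.2.1.tendsto_subseq hxK
    have hc := hlim.cauchySeq
    rw [Metric.cauchySeq_iff'] at hc
    obtain ⟨N, hN⟩ := hc d hd
    refine ⟨φ N, φ (N + 1), hφ (Nat.lt_succ_self N), ?_⟩
    rw [dist_comm]
    exact hN (N + 1) (Nat.le_succ N)
  have hYij : Y i = Y j := by
    refine connectedComponentIn_eq (hballY i ?_)
    rwa [mem_ball, dist_comm]
  have hshift : ∀ a b, Y a = Y b → Y (a + 1) = Y (b + 1) := by
    intro a b hab
    have h1 : x a ∈ Y a := hballY a (mem_ball_self hd)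
    have h2 : f c (x a) ∈ Y (a + 1) := hYsub a _ (subset_closure h1) (mem_ball_self hd)
    have h3 : f c (x a) ∈ Y (b + 1) :=
      hYsub b _ (subset_closure (hab ▸ h1)) (mem_ball_self hd)
    exact (connectedComponentIn_eq h2).trans (connectedComponentIn_eq h3).symm
  have hper : ∀ n, Y (i + n) = Y (j + n) := by
    intro n
    induction n with
    | zero => exact hYij
    | succ n ih => exact hshift _ _ ih
  refine ⟨j - i, fun n => Y (i + n), ?_⟩
  constructor
  · omega
  · intro n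
    exact isOpen_interior.connectedComponentIn
  · intro n
    exact isPreconnected_connectedComponentIn
  · intro n
    exact ⟨x (i + n), hballY _ (mem_ball_self hd)⟩
  · intro n
    exact (hYK _).trans (interior_subset.trans (hK.subset_closedBall hd.le))
  · intro n
    have h1 : i + (n + (j - i)) = j + n := by omega
    simp only [h1]
    exact (hper n).symm
  · intro n z hz
    exact hYsub (i + n) z hz

namespace Cyc

variable {c : ℂ} {d : ℝ} {k : ℕ} {W : ℕ → Set ℂ}

theorem per_mul (h : Cyc c d k W) (i n : ℕ) : W (i + n * k) = W i := by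
  induction n with
  | zero => simp
  | succ n ih =>
    have : i + (n + 1) * k = i + n * k + k := by ring
    rw [this, h.per, ih]

/-- Strengthening of `ball_sub` at interior points. -/
theorem closedBall_sub (h : Cyc c d k W) (hd : 0 < d) (i : ℕ) {z : ℂ} (hz : z ∈ W i) :
    closedBall (f c z) d ⊆ W (i + 1) := by
  intro w hw
  rw [mem_closedBall, dist_eq_norm] at hw
  obtain ⟨s, hs, hsub⟩ := Metric.isOpen_iff.1 (h.isOpen i) z hz
  -- choose `ε`
  obtain ⟨ε, hε0, hε1, hε2⟩ : ∃ ε : ℝ, 0 < ε ∧ ε < 1 ∧ ε * d < s ^ 2 := by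
    refine ⟨min (1 / 2) (s ^ 2 / (2 * d)), by positivity, ?_, ?_⟩
    · exact (min_le_left _ _).trans_lt (by norm_num)
    · calc min (1 / 2) (s ^ 2 / (2 * d)) * d ≤ s ^ 2 / (2 * d) * d := by
            gcongr; exact min_le_right _ _
        _ = s ^ 2 / 2 := by field_simp
        _ < s ^ 2 := by nlinarith [sq_nonneg s, pow_pos hs 2]
  set v : ℂ := w - f c z with hv
  obtain ⟨y, hy⟩ : ∃ y : ℂ, y ^ 2 = z ^ 2 + ε * v := IsAlgClosed.exists_pow_nat_eq _ (by norm_num)
  obtain ⟨y, hy, hyz⟩ : ∃ y : ℂ, y ^ 2 = z ^ 2 + ε * v ∧ ‖y - z‖ ≤ ‖y + z‖ := by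
    rcases le_total ‖y - z‖ ‖y + z‖ with h1 | h1
    · exact ⟨y, hy, h1⟩
    · refine ⟨-y, by rw [neg_sq, hy], ?_⟩
      have e1 : ‖-y - z‖ = ‖y + z‖ := by rw [← norm_neg]; congr 1; ring
      have e2 : ‖-y + z‖ = ‖y - z‖ := by rw [← norm_neg]; congr 1; ring
      rw [e1, e2]
      exact h1
  have h1 : ‖y - z‖ ^ 2 ≤ ε * d := by
    have h2 : (y - z) * (y + z) = ε * v := by
      have : (y - z) * (y + z) = y ^ 2 - z ^ 2 := by ring
      rw [this, hy]; ring
    have h3 : ‖y - z‖ * ‖y + z‖ = ε * ‖v‖ := by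
      rw [← norm_mul, h2, norm_mul, Complex.norm_real, Real.norm_of_nonneg hε0.le]
    calc ‖y - z‖ ^ 2 = ‖y - z‖ * ‖y - z‖ := by ring
      _ ≤ ‖y - z‖ * ‖y + z‖ := by gcongr
      _ = ε * ‖v‖ := h3
      _ ≤ ε * d := by gcongr
  have h4 : y ∈ W i := by
    apply hsub
    rw [mem_ball, dist_eq_norm]
    have h5 : ‖y - z‖ ^ 2 < s ^ 2 := h1.trans_lt hε2
    exact lt_of_pow_lt_pow_left₀ 2 hs.le h5
  refine h.ball_sub i y (subset_closure h4) ?_
  rw [mem_ball, dist_eq_norm]
  have h6 : w - f c y = ((1 - ε : ℝ) : ℂ) * v := by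
    have : f c y = f c z + ε * v := by simp only [f, hy]; ring
    rw [this, hv]
    push_cast
    ring
  rw [h6, norm_mul, Complex.norm_real, Real.norm_of_nonneg (by linarith)]
  nlinarith [norm_nonneg v]

end Cyc

end Pool.Agent.Lib.MP_77ccbb_an
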