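import Pool.Agent.Lib.MP_77ccbb_an.EarleHamilton

/-!
Upper bound: if `d ≤ rbif c`, `d > 0`, then `ball c d` is contained in the interior of the
Mandelbrot set.
-/

open Set Filter Topology Metric

namespace Pool.Agent.Lib.MP_77ccbb_an

theorem f_sub_f (c c' z : ℂ) : f c' z - f c z = c' - c := by simp only [f]; ring

namespace Cyc

variable {c : ℂ} {d : ℝ} {k : ℕ} {W : ℕ → Set ℂ}

theorem map_closedBall (h : Cyc c d k W) (hd : 0 < d) {c' : ℂ} (hc' : ‖c' - c‖ ≤ d) (i : ℕ)
    {z : ℂ} (hz : z ∈ W i) : f c' z ∈ W (i + 1) := by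
  refine h.closedBall_sub hd i hz ?_
  rw [mem_closedBall, dist_eq_norm, f_sub_f]
  exact hc'

theorem map_iter (h : Cyc c d k W) (hd : 0 < d) {c' : ℂ} (hc' : ‖c' - c‖ ≤ d) (i n : ℕ)
    {z : ℂ} (hz : z ∈ W i) : (f c')^[n] z ∈ W (i + n) := by
  induction n with
  | zero => exact hz
  | succ n ih =>
    rw [Function.iterate_succ_apply']
    exact h.map_closedBall hd hc' (i + n) ih

theorem map_ball (h : Cyc c d k W) {c' : ℂ} (i : ℕ)
    {z : ℂ} (hz : z ∈ W i) : ball (f c' z) (d - ‖c' - c‖) ⊆ W (i + 1) := by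
  refine Subset.trans (ball_subset_ball' ?_) (h.ball_sub i z (subset_closure hz))
  rw [dist_eq_norm, f_sub_f]
  linarith

/-- Existence of attracting cycles. -/
theorem exists_attracting (h : Cyc c d k W) (hd : 0 < d) {c' : ℂ} (hc' : ‖c' - c‖ < d) :
    ∃ q ∈ W 0, (f c')^[k] q = q ∧ ‖deriv (f c')^[k] q‖ < 1 := by
  refine earle_hamilton (ε := d - ‖c' - c‖) (h.isOpen 0) (h.preconn 0) (h.nonempty 0) (h.bdd 0)
    (differentiable_iter c' k) (by linarith) fun z hz => ?_
  obtain ⟨m, hm⟩ : ∃ m, k = m + 1 := ⟨k - 1, by have := h.hk; omega⟩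
  have h1 : (f c')^[m] z ∈ W m := by simpa using h.map_iter hd hc'.le 0 m hz
  have h2 := h.map_ball (c' := c') m h1
  have h3 : W (m + 1) = W 0 := by
    have := h.per 0
    rwa [zero_add, hm] at this
  rw [hm, Function.iterate_succ_apply', ← h3]
  exact h2

theorem ball_subset_interior (h : Cyc c d k W) (hd : 0 < d) : ball c d ⊆ interior mandelbrot := by
  intro c' hc'
  rw [mem_ball, dist_eq_norm] at hc'
  obtain ⟨q, _, hq1, hq2⟩ := h.exists_attracting hd hc'
  exact fatou h.hk hq1 hq2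

end Cyc

theorem ball_subset_interior_of_le_rbif {c : ℂ} {d : ℝ} (hd : 0 < d) (h : d ≤ rbif c) :
    ball c d ⊆ interior mandelbrot := by
  obtain ⟨K, hK⟩ := exists_planarInv hd h
  obtain ⟨k, W, hW⟩ := exists_cyc hd hK
  exact hW.ball_subset_interior hd

theorem zero_mem_mandelbrot : (0 : ℂ) ∈ mandelbrot := by
  refine mem_mandelbrot_of_bounded_subseq (C := 0) tendsto_id fun m => ?_
  have : ∀ n : ℕ, (f 0)^[n] 0 = 0 := by
    intro n
    induction n with
    | zero => rfl
    | succ n ih => rw [Function.iterate_succ_apply', ih]; simp [f]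
  simp [this]

theorem not_mem_mandelbrot_of_escape {c : ℂ} (n : ℕ) (h : 1 + ‖c‖ < ‖(f c)^[n] 0‖) :
    c ∉ mandelbrot := by
  intro hc
  apply hc
  rw [← tendsto_norm_atTop_iff_cobounded]
  have h1 := escape c _ h
  have h2 : (fun m : ℕ => ‖(f c)^[m] ((f c)^[n] 0)‖) = fun m => ‖(f c)^[m + n] 0‖ := by
    ext m
    rw [Function.iterate_add_apply]
  rw [h2] at h1
  exact (tendsto_add_atTop_iff_nat (f := fun m => ‖(f c)^[m] 0‖) n).1 h1

theorem three_not_mem_mandelbrot : (3 : ℂ) ∉ mandelbrot := by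
  refine not_mem_mandelbrot_of_escape 2 ?_
  simp [f]
  norm_num

theorem frontier_nonempty : (frontier mandelbrot).Nonempty := by
  rw [nonempty_frontier_iff]
  refine ⟨⟨0, zero_mem_mandelbrot⟩, ?_⟩
  intro h
  exact three_not_mem_mandelbrot (h ▸ mem_univ _)

/-- The general upper bound. -/
theorem rbif_le_infDist (c : ℂ) : rbif c ≤ infDist c (frontier mandelbrot) := by
  by_contra hcon
  push Not at hcon
  have hd : 0 < rbif c := infDist_nonneg.trans_lt hcon
  obtain ⟨x, hx, hx2⟩ := (infDist_lt_iff frontier_nonempty).1 hcon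
  have h1 := ball_subset_interior_of_le_rbif hd le_rfl
  have h2 : x ∈ interior mandelbrot := h1 (by rwa [mem_ball, dist_comm])
  exact hx.2 h2

end Pool.Agent.Lib.MP_77ccbb_an
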